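import Mathlib

/-! An asymptotic inequality. -/

set_option autoImplicit false

namespace Pool.Agent.V7H50

open Filter Topology

theorem asym {ι σ : Type*} [Fintype ι] (S : Finset σ) (A : σ → ℝ) (X Y : σ → ι → ℝ) (g γ : ι → ℝ)
    (h : ∑ p ∈ S, A p * ∏ i, X p i < ∏ i, g i) :
    ∃ m0 : ℕ, ∀ m : ℕ, m0 ≤ m →
      ∑ p ∈ S, A p * ∏ i, (m * X p i + Y p i) < ∏ i, (m * g i - γ i) := by
  have h0 : Tendsto (fun m : ℕ => ((m : ℝ))⁻¹) atTop (𝓝 0) := tendsto_inv_atTop_nhds_zero_nat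
  have h1 : Tendsto (fun m : ℕ => ∑ p ∈ S, A p * ∏ i, (X p i + Y p i * ((m : ℝ))⁻¹)) atTop
      (𝓝 (∑ p ∈ S, A p * ∏ i, X p i)) := by
    refine tendsto_finsetSum _ fun p _ => ?_
    refine Tendsto.const_mul _ (tendsto_finsetProd _ fun i _ => ?_)
    have h3 := (h0.const_mul (Y p i)).const_add (X p i)
    simpa using h3
  have h2 : Tendsto (fun m : ℕ => ∏ i, (g i - γ i * ((m : ℝ))⁻¹)) atTop (𝓝 (∏ i, g i)) := by
    refine tendsto_finsetProd _ fun i _ => ?_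
    have h3 := (h0.const_mul (γ i)).const_sub (g i)
    simpa using h3
  have h3 := (h1.eventually_lt h2 h).and (eventually_gt_atTop 0)
  rw [eventually_atTop] at h3
  obtain ⟨m0, hm0⟩ := h3
  refine ⟨m0, fun m hm => ?_⟩
  obtain ⟨h4, h5⟩ := hm0 m hm
  have hm : (0 : ℝ) < m := by exact_mod_cast h5
  have h6 := mul_lt_mul_of_pos_right h4 (pow_pos hm (Fintype.card ι))
  have e1 : (∑ p ∈ S, A p * ∏ i, (X p i + Y p i * ((m : ℝ))⁻¹)) * (m : ℝ) ^ Fintype.card ι =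
      ∑ p ∈ S, A p * ∏ i, (m * X p i + Y p i) := by
    rw [Finset.sum_mul]
    refine Finset.sum_congr rfl fun p _ => ?_
    rw [mul_assoc, ← Finset.card_univ, ← Finset.prod_const, ← Finset.prod_mul_distrib]
    congr 1
    refine Finset.prod_congr rfl fun i _ => ?_
    field_simp
  have e2 : (∏ i, (g i - γ i * ((m : ℝ))⁻¹)) * (m : ℝ) ^ Fintype.card ι =
      ∏ i, (m * g i - γ i) := by
    rw [← Finset.card_univ, ← Finset.prod_const, ← Finset.prod_mul_distrib]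
    refine Finset.prod_congr rfl fun i _ => ?_
    field_simp
  rwa [e1, e2] at h6

end Pool.Agent.V7H50
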