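import Pool.Agent.W619.Y.KodT
import Pool.Agent.W619.Y.Parts
import Pool.Agent.W513.PG.SYM

/-! Kodaira dimension of the quotient from forms upstairs: an adaptation of
`Pool.Agent.W619.Y.KodT`. -/

set_option autoImplicit false
set_option linter.overlappingInstances false
set_option linter.unusedSectionVars false

universe u v

open FF IntermediateField Pool.Agent.W619.PQ Pool.Agent.W619.PL Pool.Agent.W619.TW
  Pool.Agent.W603.LV Pool.Agent.W672.PG Pool.Agent.W619.Y

namespace Pool.Agent.V7H50

section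

open scoped Classical in
theorem kod_abs (k : Type v) (L : Type u) [Field k] [CharZero k] [IsAlgClosed k]
    [Field L] [Algebra k L] (N h : ℕ) (G : Subgroup (L ≃ₐ[k] L)) [Finite G]
    (hn : Algebra.trdeg k L = (N : ℕ)) (t : Fin N → L) (ht : IsTranscendenceBasis k t) (m : ℕ)
    (hm : 1 ≤ m) (B : Fin (h + 1) → L) (hB0 : ∀ l, B l ≠ 0)
    (hind : AlgebraicIndependent k (fun l : Fin h => B l.succ / B 0))
    (hreg : ∀ v : Place k (fixedField G), IsDivisorial v N → ∃ (w : Place k L) (e : ℕ),
      Over w v e ∧ ∀ l (D : Fin N → Derivation k (fixedField G) (fixedField G))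
        (D' : Fin N → Derivation k L L), (∀ j, Pres v (D j)) →
        (∀ j (f : fixedField G), D' j (f : L) = (D j f : L)) → ∀ g : G,
        Ge w 0 ((g : L ≃ₐ[k] L) (B l * (Matrix.of fun i j => D' j (t i)).det ^ m))) :
    KodTr k (fixedField G) N h := by
  have halgK := Pool.Agent.W721.PG.EFF2.alg_fixed G
  have := Fintype.ofFinite G
  obtain ⟨hnK, z, hz⟩ := Pool.Agent.W721.PG.EFF2.exists_basis (fixedField G) N hn
  choose ext hext hext2 hext3 using pEXT k (fixedField G) L N hnK
  obtain ⟨D0, hD0⟩ := Pool.Agent.W721.PG.EFF2.exists_det (fixedField G) N z hz _ ht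
    ext hext
  have hfix : ∀ (g : G) (f : fixedField G), (g : L ≃ₐ[k] L) (algebraMap (fixedField G) L f) =
      algebraMap (fixedField G) L f := fun g f => f.2 g
  let V : (Fin N → Derivation k (fixedField G) (fixedField G)) → Fin (h + 1) → L :=
    fun D l => B l * (Matrix.of fun i j => ext (D j) (t i)).det ^ m
  have hV0 : ∀ l, V D0 l ≠ 0 := fun l => mul_ne_zero (hB0 l) (pow_ne_zero _ hD0)
  have hVr : ∀ l : Fin h, V D0 l.succ / V D0 0 = B l.succ / B 0 := by
    intro l
    change B l.succ * _ / (B 0 * _) = _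
    rw [mul_div_mul_right _ _ (pow_ne_zero _ hD0)]
  have hVlin : ∀ (X : Matrix (Fin N) (Fin N) (fixedField G))
      (D : Fin N → Derivation k (fixedField G) (fixedField G)) l,
      V (fun i => ∑ j, X i j • D j) l = V D l * (algebraMap (fixedField G) L X.det) ^ m := by
    intro X D l
    have e1 : ∀ j, ext (∑ l, X j l • D l) = ∑ l, (algebraMap (fixedField G) L (X j l)) •
        ext (D l) := by
      intro j
      symm
      apply hext2
      intro f
      rw [Pool.Agent.W721.PG.EFF2.der_sum, Pool.Agent.W721.PG.EFF2.der_sum, map_sum]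
      refine Finset.sum_congr rfl fun l _ => ?_
      rw [hext, map_mul]
    have e2 : (Matrix.of fun i j => ext (∑ l, X j l • D l) (t i)) =
        (Matrix.of fun i j => ext (D j) (t i)) *
          (X.map (algebraMap (fixedField G) L)).transpose := by
      ext i j
      simp only [Matrix.of_apply, Matrix.mul_apply, Matrix.transpose_apply, Matrix.map_apply]
      rw [e1, Pool.Agent.W721.PG.EFF2.der_sum]
      exact Finset.sum_congr rfl fun l _ => mul_comm _ _
    have e3 : (X.map (algebraMap (fixedField G) L)).det = algebraMap (fixedField G) L X.det := by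
      rw [RingHom.map_det]
      rfl
    change B l * (Matrix.of fun i j => ext (∑ l, X j l • D l) (t i)).det ^ m = _
    rw [e2, Matrix.det_mul, Matrix.det_transpose, e3, mul_pow]
    change _ = B l * (Matrix.of fun i j => ext (D j) (t i)).det ^ m * _
    ring
  -- symmetric functions
  obtain ⟨R, tt, r, q, hR, hrq, hs0, hsi⟩ := Pool.Agent.W513.PG.main k L G 1 h
    (fun g l => (g : L ≃ₐ[k] L) (V D0 l)) (fun l => by
      change V D0 l ≠ 0
      exact hV0 l) (by
      have e1 : (fun l : Fin h => ((1 : G) : L ≃ₐ[k] L) (V D0 l.succ) /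
          ((1 : G) : L ≃ₐ[k] L) (V D0 0)) = fun l : Fin h => B l.succ / B 0 := by
        funext l
        exact hVr l
      rw [e1]
      exact hind)
  let s : (Fin N → Derivation k (fixedField G) (fixedField G)) → Fin (h + 1) → L :=
    fun D j => esy (fun g : G => (g : L ≃ₐ[k] L) (V D (tt j))) (r j) ^ q j
  have hsG : ∀ D j (g : G), (g : L ≃ₐ[k] L) (s D j) = s D j := by
    intro D j g
    change (g : L ≃ₐ[k] L) (esy (fun g : G => (g : L ≃ₐ[k] L) (V D (tt j))) (r j) ^ q j) = _
    rw [map_pow]
    congr 1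
    exact esy_inv _ (g : L ≃ₐ[k] L) (Equiv.mulLeft g) (fun i => rfl) _
  have hsA : ∀ (X : Matrix (Fin N) (Fin N) (fixedField G))
      (D : Fin N → Derivation k (fixedField G) (fixedField G)) j,
      s (fun i => ∑ j, X i j • D j) j = (algebraMap (fixedField G) L X.det) ^ (m * R) * s D j := by
    intro X D j
    have e1 : (fun g : G => (g : L ≃ₐ[k] L) (V (fun i => ∑ j, X i j • D j) (tt j))) =
        fun g : G => (g : L ≃ₐ[k] L) (V D (tt j)) * (algebraMap (fixedField G) L X.det) ^ m := by
      funext g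
      rw [hVlin, map_mul, map_pow, hfix]
    change esy (fun g : G => (g : L ≃ₐ[k] L) (V (fun i => ∑ j, X i j • D j) (tt j))) (r j) ^ q j =
      (algebraMap (fixedField G) L X.det) ^ (m * R) *
        esy (fun g : G => (g : L ≃ₐ[k] L) (V D (tt j))) (r j) ^ q j
    rw [e1, esy_mul, mul_pow, ← pow_mul, ← pow_mul, hrq j]
  refine ⟨m * R, Nat.mul_pos hm hR, fun j D => ⟨s D j, fun g => hsG D j g⟩, fun l => ⟨?_, ?_, ?_⟩,
    D0, fun l h0 => ?_, ?_⟩
  · intro X D
    apply Subtype.ext
    change s (fun i => ∑ j, X i j • D j) l =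
      algebraMap (fixedField G) L (X.det ^ (m * R) * ⟨s D l, fun g => hsG D l g⟩)
    rw [hsA, map_mul, map_pow]
    rfl
  · intro v hv _ D hD
    apply Pool.Agent.W721.PG.EFF2.dom_of_reg
    obtain ⟨w, ee, hwv, hreg⟩ := hreg v hv
    rw [← hwv.reg]
    have hVreg : ∀ l (g : G), Ge w 0 ((g : L ≃ₐ[k] L) (V D l)) := fun l g =>
      hreg l D (fun j => ext (D j)) hD (fun j f => hext (D j) f) g
    exact ge_pow0 (ge_esy _ (fun g => hVreg (tt l) g) _) _
  · intro v _ hv
    exact hv.elim
  · exact pow_ne_zero _ (hs0 l) (congrArg Subtype.val h0)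
  · have hsi' : AlgebraicIndependent k fun l : Fin h =>
        ((⟨s D0 l.succ, fun g => hsG D0 l.succ g⟩ / ⟨s D0 0, fun g => hsG D0 0 g⟩ :
          fixedField G) : L) := hsi
    exact (AlgHom.algebraicIndependent_iff (fixedField G).val (Subtype.val_injective)).1 hsi'

end

end Pool.Agent.V7H50
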