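import Pool.Agent.W619.Y.Parts
import Pool.Agent.W391.PG.REGLOG

/-! Permutations of the curves: equivariant choices. -/

set_option autoImplicit false
set_option linter.overlappingInstances false
set_option linter.unusedSectionVars false

universe u v

open FF IntermediateField Pool.Agent.W619.PQ Pool.Agent.W619.PL Pool.Agent.W619.TW
  Pool.Agent.W603.LV Pool.Agent.W619.Y Pool.Agent.W391.PG.REGLOG

namespace Pool.Agent.V7H50

section

variable {n : ℕ} (τ : Equiv.Perm (Fin n))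

theorem mem_per (i : Fin n) : i ∈ Function.periodicPts τ :=
  ⟨orderOf τ, orderOf_pos τ, by
    change τ^[orderOf τ] i = i
    rw [Equiv.Perm.iterate_eq_pow, pow_orderOf_eq_one]
    rfl⟩

theorem len_pos (i : Fin n) : 0 < Function.minimalPeriod τ i :=
  Function.minimalPeriod_pos_of_mem_periodicPts (mem_per τ i)

theorem pow_len (i : Fin n) : (τ ^ Function.minimalPeriod τ i) i = i := by
  rw [← Equiv.Perm.iterate_eq_pow]
  exact Function.iterate_minimalPeriod

theorem len_dvd (i : Fin n) : Function.minimalPeriod τ i ∣ n.factorial := by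
  apply Nat.dvd_factorial (len_pos τ i)
  have := Function.minimalPeriod_le_card (f := τ) (x := i)
  simpa using this

theorem len_mul_le (B : Fin n → ℕ) (hB : ∀ i, B (τ i) = B i) (i : Fin n) :
    Function.minimalPeriod τ i * B i ≤ ∑ j, B j := by
  classical
  have h1 : ∀ s : ℕ, B (τ^[s] i) = B i := by
    intro s
    induction s with
    | zero => rfl
    | succ s ih => rw [Function.iterate_succ_apply', hB, ih]
  have h2 : ∑ j ∈ (Finset.range (Function.minimalPeriod τ i)).image (fun s => τ^[s] i), B j =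
      Function.minimalPeriod τ i * B i := by
    rw [Finset.sum_image]
    · rw [Finset.sum_congr rfl fun s _ => h1 s]
      simp
    · intro s hs t ht hst
      exact Function.iterate_injOn_Iio_minimalPeriod (by simpa using hs) (by simpa using ht) hst
  rw [← h2]
  exact Finset.sum_le_sum_of_subset (Finset.subset_univ _)

end

section

variable {k : Type v} {L : Type u} [Field k] [CharZero k] [IsAlgClosed k] [Field L] [Algebra k L]
  {n : ℕ}

/-- Equivariant coordinates on the curves. -/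
theorem exists_x (F : Fin n → IntermediateField k L) [∀ i, IsFF k (F i)]
    (G : Subgroup (L ≃ₐ[k] L)) [Finite G] (σ : G →* Equiv.Perm (Fin n))
    (hσ : ∀ (g : G) i, ∀ z ∈ F i, (g : L ≃ₐ[k] L) z ∈ F (σ g i)) :
    ∃ x : ∀ i, F i, (∀ i, (x i : L) ∈ Quo G σ F i) ∧ (∀ i, Transcendental k (x i)) ∧
      ∀ (g : G) i, (g : L ≃ₐ[k] L) (x i : L) = x (σ g i) := by
  have htrans : ∀ (g : G) (z : L), Transcendental k z → Transcendental k ((g : L ≃ₐ[k] L) z) :=
    fun g z hz h => hz ((isAlgebraic_algHom_iff (g : L ≃ₐ[k] L).toAlgHom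
      (g : L ≃ₐ[k] L).injective).1 h)
  obtain ⟨x, hx, hxg⟩ := pEQV G n σ L (fun i a => a ∈ Quo G σ F i ∧ Transcendental k a)
    (fun g i a ha => ⟨quo_smul G σ F hσ g i a ha.1, htrans g a ha.2⟩)
    (fun i a ha g hg => fix_of_quo G σ F g i a ha.1 hg) (fun i => by
      by_contra hcon
      push Not at hcon
      obtain ⟨z, hz⟩ := IsFF.exists_transcendental (k := k) (K := F i)
      have h1 : Algebra.IsAlgebraic k (Quo G σ F i) := ⟨fun y => by
        have h2 := hcon y y.2
        unfold Transcendental at h2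
        push Not at h2
        exact (isAlgebraic_algHom_iff (Quo G σ F i).val Subtype.val_injective).1 h2⟩
      have h2 := (isIntegral_quo G σ F hσ i z z.2).isAlgebraic
      have h3 : IsAlgebraic k (z : L) := h2.restrictScalars k
      exact hz ((isAlgebraic_algHom_iff (F i).val Subtype.val_injective).1 h3))
  refine ⟨fun i => ⟨x i, (IntermediateField.mem_inf.1 (hx i).1).1⟩, fun i => (hx i).1, fun i h => ?_,
    fun g i => hxg g i⟩
  exact (hx i).2 (h.algebraMap (A := L))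

open scoped Classical in
/-- Local coordinates compatible with a generator of the inertia group. -/
theorem exists_s (F : Fin n → IntermediateField k L) [∀ i, IsFF k (F i)]
    (G : Subgroup (L ≃ₐ[k] L)) [Finite G] (σ : G →* Equiv.Perm (Fin n))
    (hF : ∀ (g : G) i, ∀ z ∈ F i, (g : L ≃ₐ[k] L) z ∈ F (σ g i)) (w : Place k L) (h : G)
    (hordr : ∀ (r : ℕ) (z : L), w.ord (((h ^ r : G) : L ≃ₐ[k] L) z) = w.ord z)
    (x : ∀ i, F i) (hx : ∀ i, Transcendental k (x i))
    (hxσ : ∀ (g : G) i, (g : L ≃ₐ[k] L) (x i : L) = x (σ g i)) :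
    (∀ (r : ℕ) i, (∃ z ∈ F i, w.ord z ≠ 0) ↔ ∃ z ∈ F (σ (h ^ r) i), w.ord z ≠ 0) ∧
    ∃ s : ∀ i, F i, (∀ i, Transcendental k (s i)) ∧
      (∀ i, (∃ z ∈ F i, w.ord z ≠ 0) → w.ord (s i : L) ≠ 0) ∧
      ∀ i, (h : L ≃ₐ[k] L) (s i : L) = s (σ h i) := by
  let U : Set (Fin n) := {i | ∃ z ∈ F i, w.ord z ≠ 0}
  have hUg0 : ∀ (r : ℕ) i, i ∈ U → σ (h ^ r) i ∈ U := by
    rintro r i ⟨z, hz, hz0⟩
    exact ⟨((h ^ r : G) : L ≃ₐ[k] L) z, hF _ i z hz, by rwa [hordr]⟩
  have hUg : ∀ (r : ℕ) i, i ∈ U ↔ σ (h ^ r) i ∈ U := by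
    intro r i
    refine ⟨hUg0 r i, ?_⟩
    rintro ⟨z, hz, hz0⟩
    refine ⟨((h ^ r : G)⁻¹ : L ≃ₐ[k] L) z, ?_, ?_⟩
    · have h4 := hF ((h ^ r : G)⁻¹) _ z hz
      rw [← Equiv.Perm.mul_apply, ← map_mul, inv_mul_cancel, map_one] at h4
      exact h4
    · have h4 := hordr r (((h ^ r : G)⁻¹ : L ≃ₐ[k] L) z)
      have h5 : ((h ^ r : G) : L ≃ₐ[k] L) (((h ^ r : G)⁻¹ : L ≃ₐ[k] L) z) = z := by
        rw [← AlgEquiv.mul_apply, mul_inv_cancel]; rfl
      rw [h5] at h4
      rwa [← h4]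
  refine ⟨hUg, ?_⟩
  -- the uniformizers
  let Γ := Subgroup.zpowers h
  have hΓ : ∀ g : Γ, ∃ r : ℕ, (g : G) = h ^ r := by
    intro g
    have h4 := mem_powers_iff_mem_zpowers.2 g.2
    obtain ⟨r, hr⟩ := h4
    exact ⟨r, hr.symm⟩
  obtain ⟨u, hu1, hu2⟩ := pEQV Γ n (σ.comp Γ.subtype) L
    (fun i a => a ∈ Quo G σ F i ∧ (i ∈ U → w.ord a ≠ 0))
    (by
      rintro g i a ⟨ha, ha1⟩
      obtain ⟨r, hr⟩ := hΓ g
      have e1 : (σ.comp Γ.subtype) g i = σ (h ^ r) i := by
        rw [MonoidHom.comp_apply, Subgroup.coe_subtype, hr]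
      have e2 : g • a = ((h ^ r : G) : L ≃ₐ[k] L) a := by
        have : g • a = ((g : G) : L ≃ₐ[k] L) a := rfl
        rw [this, hr]
      rw [e1, e2]
      refine ⟨quo_smul G σ F hF _ i a ha, fun hi => ?_⟩
      rw [hordr]
      exact ha1 ((hUg r i).2 hi))
    (by
      rintro i a ⟨ha, -⟩ g hg
      exact fix_of_quo G σ F (g : G) i a ha hg)
    (by
      intro i
      by_cases hi : i ∈ U
      · obtain ⟨a, ha, ha'⟩ := exists_quo G σ F hF i w hi
        exact ⟨a, ha, fun _ => ha'⟩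
      · exact ⟨1, one_mem _, fun h4 => absurd h4 hi⟩)
  have huF : ∀ i, u i ∈ F i := fun i => (IntermediateField.mem_inf.1 (hu1 i).1).1
  refine ⟨fun i => if i ∈ U then ⟨u i, huF i⟩ else x i, fun i => ?_, fun i hi => ?_, fun i => ?_⟩
  · by_cases hi : i ∈ U
    · simp only [if_pos hi]
      intro h6
      exact w.transcendental_of_ord_ne ((hu1 i).2 hi) (h6.algebraMap (A := L))
    · simp only [if_neg hi]
      exact hx i
  · have hi' : i ∈ U := hi
    simp only [if_pos hi']
    exact (hu1 i).2 hi'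
  · have hU : i ∈ U ↔ σ h i ∈ U := by
      have := hUg 1 i
      rwa [pow_one] at this
    by_cases hi : i ∈ U
    · simp only [if_pos hi, if_pos (hU.1 hi)]
      exact hu2 ⟨h, Subgroup.mem_zpowers h⟩ i
    · simp only [if_neg hi, if_neg (fun h4 => hi (hU.2 h4))]
      exact hxσ h i

end

end Pool.Agent.V7H50
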