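import Mathlib

/-! The number of lattice points in a simplex. -/

set_option autoImplicit false

namespace Pool.Agent.V7H50

theorem step_le (n : ℕ) (b t : ℝ) (hb : 0 ≤ b) (ht : 0 ≤ t) :
    (n + 1) * (b * t ^ n) ≤ (t + b) ^ (n + 1) - t ^ (n + 1) := by
  induction n with
  | zero => simp
  | succ n ih =>
    have h1 : (t + b) ^ (n + 1 + 1) - t ^ (n + 1 + 1) =
        t * ((t + b) ^ (n + 1) - t ^ (n + 1)) + b * (t + b) ^ (n + 1) := by ring
    have h2 : t ^ (n + 1) ≤ (t + b) ^ (n + 1) := pow_le_pow_left₀ ht (by linarith) _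
    have h3 := mul_le_mul_of_nonneg_left ih ht
    have h4 := mul_le_mul_of_nonneg_left h2 hb
    push_cast
    rw [h1]
    calc ((n : ℝ) + 1 + 1) * (b * t ^ (n + 1)) = t * (((n : ℝ) + 1) * (b * t ^ n)) +
        b * t ^ (n + 1) := by ring
      _ ≤ _ := add_le_add h3 h4

theorem sum_step_le (n : ℕ) (b X : ℝ) (hb : 0 ≤ b) (J : ℕ) (hJ : ∀ j < J, (j : ℝ) * b ≤ X) :
    (n + 1) * ∑ j ∈ Finset.range J, b * (X - j * b) ^ n ≤ (X + b) ^ (n + 1) -
      (if J = 0 then (X + b) ^ (n + 1) else (X + b - J * b) ^ (n + 1)) := by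
  induction J with
  | zero => simp
  | succ J ih =>
    rw [Finset.sum_range_succ, mul_add]
    have h1 := ih fun j hj => hJ j (by omega)
    have h2 := step_le n b (X - J * b) hb (by have := hJ J (by omega); linarith)
    rw [if_neg (Nat.succ_ne_zero J)]
    have e1 : (X + b - ((J + 1 : ℕ) : ℝ) * b) = X - J * b := by push_cast; ring
    have e2 : X - J * b + b = X + b - J * b := by ring
    rw [e1]
    rw [e2] at h2
    by_cases h0 : J = 0
    · subst h0
      simp only [if_true, Nat.cast_zero, zero_mul, sub_zero] at h1 h2 ⊢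
      simp only [Finset.range_zero, Finset.sum_empty, mul_zero, zero_add]
      exact h2
    · rw [if_neg h0] at h1
      linarith

/-- The number of lattice points in a simplex. -/
theorem count (n : ℕ) : ∀ (b : Fin n → ℝ) (C : ℝ), (∀ i, 0 < b i) → 0 ≤ C →
    ∃ s : Finset (Fin n → ℕ), (∀ α : Fin n → ℕ, ∑ i, b i * α i < C → α ∈ s) ∧
      (s.card : ℝ) * (n.factorial * ∏ i, b i) ≤ (C + ∑ i, b i) ^ n := by
  classical
  induction n with
  | zero =>
    intro b C _ hC
    refine ⟨{default}, fun α _ => by simp [Subsingleton.elim α default], by simp⟩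
  | succ n ih =>
    intro b C hb hC
    have hb0 : 0 < b 0 := hb 0
    let J : ℕ := ⌈C / b 0⌉₊
    have hJ : ∀ j : ℕ, j < J → (j : ℝ) * b 0 < C := by
      intro j hj
      have := Nat.lt_ceil.1 hj
      rwa [lt_div_iff₀ hb0] at this
    have hJ2 : ∀ j : ℕ, (j : ℝ) * b 0 < C → j < J := by
      intro j hj
      apply Nat.lt_ceil.2
      rwa [lt_div_iff₀ hb0]
    have key : ∀ j : ℕ, ∃ s : Finset (Fin n → ℕ), j < J →
        (∀ α : Fin n → ℕ, ∑ i, b i.succ * α i < C - j * b 0 → α ∈ s) ∧
        (s.card : ℝ) * (n.factorial * ∏ i : Fin n, b i.succ) ≤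
          (C - j * b 0 + ∑ i : Fin n, b i.succ) ^ n := by
      intro j
      by_cases hj : j < J
      · obtain ⟨s, hs1, hs2⟩ := ih (fun i => b i.succ) (C - j * b 0) (fun i => hb _)
          (by have := hJ j hj; linarith)
        exact ⟨s, fun _ => ⟨hs1, hs2⟩⟩
      · exact ⟨∅, fun h => absurd h hj⟩
    choose s hs using key
    refine ⟨(Finset.range J).biUnion fun j => (s j).image (fun α => (Fin.cons j α : Fin (n + 1) → ℕ)),
      ?_, ?_⟩
    · intro α hα
      rw [Fin.sum_univ_succ] at hα
      have h0 : 0 ≤ ∑ i : Fin n, b i.succ * α i.succ :=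
        Finset.sum_nonneg fun i _ => mul_nonneg (hb _).le (Nat.cast_nonneg _)
      have h1 : α 0 < J := hJ2 _ (by linarith)
      rw [Finset.mem_biUnion]
      refine ⟨α 0, Finset.mem_range.2 h1, ?_⟩
      rw [Finset.mem_image]
      refine ⟨Fin.tail α, (hs _ h1).1 _ ?_, Fin.cons_self_tail α⟩
      simp only [Fin.tail]
      linarith
    · have hcard : (((Finset.range J).biUnion fun j => (s j).image
          (fun α => (Fin.cons j α : Fin (n + 1) → ℕ))).card : ℝ) ≤ ∑ j ∈ Finset.range J,
          ((s j).card : ℝ) := by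
        have h1 := Finset.card_biUnion_le (s := Finset.range J) (t := fun j => (s j).image
          (fun α => (Fin.cons j α : Fin (n + 1) → ℕ)))
        have h2 : ∑ j ∈ Finset.range J, ((s j).image
          (fun α => (Fin.cons j α : Fin (n + 1) → ℕ))).card ≤ ∑ j ∈ Finset.range J, (s j).card :=
          Finset.sum_le_sum fun j _ => Finset.card_image_le
        exact_mod_cast h1.trans h2
      have hS : 0 ≤ ∑ i : Fin n, b i.succ := Finset.sum_nonneg fun i _ => (hb _).le
      have hprod : 0 ≤ ((n + 1).factorial : ℝ) * ∏ i, b i :=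
        mul_nonneg (Nat.cast_nonneg _) (Finset.prod_nonneg fun i _ => (hb i).le)
      refine (mul_le_mul_of_nonneg_right hcard hprod).trans ?_
      rw [Finset.sum_mul]
      have h3 : ∀ j ∈ Finset.range J, ((s j).card : ℝ) * (((n + 1).factorial : ℝ) * ∏ i, b i) ≤
          (n + 1) * (b 0 * ((C + ∑ i : Fin n, b i.succ) - j * b 0) ^ n) := by
        intro j hj
        have h4 := (hs j (Finset.mem_range.1 hj)).2
        rw [Fin.prod_univ_succ, Nat.factorial_succ]
        push_cast
        have h5 : 0 ≤ ((n : ℝ) + 1) * b 0 := by positivity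
        have h6 := mul_le_mul_of_nonneg_left h4 h5
        calc ((s j).card : ℝ) * (((n : ℝ) + 1) * (n.factorial : ℝ) * (b 0 * ∏ i : Fin n, b i.succ)) =
            ((n : ℝ) + 1) * b 0 * (((s j).card : ℝ) * (n.factorial * ∏ i : Fin n, b i.succ)) := by
              ring
          _ ≤ _ := h6
          _ = _ := by ring
      refine (Finset.sum_le_sum h3).trans ?_
      rw [← Finset.mul_sum]
      have h7 := sum_step_le n (b 0) (C + ∑ i : Fin n, b i.succ) hb0.le J (fun j hj => by
        have := hJ j hj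
        linarith)
      refine h7.trans ?_
      rw [Fin.sum_univ_succ]
      have e1 : C + (b 0 + ∑ i : Fin n, b i.succ) = C + ∑ i : Fin n, b i.succ + b 0 := by ring
      rw [e1]
      by_cases h0 : J = 0
      · rw [if_pos h0, sub_self]
        positivity
      · rw [if_neg h0]
        have h8 : 0 ≤ (C + ∑ i : Fin n, b i.succ + b 0 - J * b 0) ^ (n + 1) := by
          apply pow_nonneg
          have h9 := hJ (J - 1) (by omega)
          have h10 : ((J - 1 : ℕ) : ℝ) = J - 1 := by
            rw [Nat.cast_sub (by omega)]; simp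
          rw [h10] at h9
          linarith
        linarith

/-- The number of lattice points in a simplex: version for a finite index type. -/
theorem count' {ι : Type*} [Fintype ι] (b : ι → ℝ) (C : ℝ) (hb : ∀ i, 0 < b i) (hC : 0 ≤ C) :
    ∃ s : Finset (ι → ℕ), (∀ α : ι → ℕ, ∑ i, b i * α i < C → α ∈ s) ∧
      (s.card : ℝ) * ((Fintype.card ι).factorial * ∏ i, b i) ≤
        (C + ∑ i, b i) ^ (Fintype.card ι) := by
  classical
  let e := Fintype.equivFin ι
  obtain ⟨s, hs1, hs2⟩ := count (Fintype.card ι) (fun j => b (e.symm j)) C (fun j => hb _) hC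
  refine ⟨s.image fun α => α ∘ e, fun α hα => ?_, ?_⟩
  · rw [Finset.mem_image]
    refine ⟨α ∘ e.symm, hs1 _ ?_, ?_⟩
    · rw [← Equiv.sum_comp e.symm] at hα
      exact hα
    · funext i
      simp
  · rw [Equiv.sum_comp e.symm, Equiv.prod_comp e.symm] at hs2
    refine le_trans ?_ hs2
    apply mul_le_mul_of_nonneg_right
    · exact_mod_cast Finset.card_image_le
    · exact mul_nonneg (Nat.cast_nonneg _) (Finset.prod_nonneg fun i _ => (hb i).le)

end Pool.Agent.V7H50
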