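import Pool.Agent.W619.TW.NDefs

/-! The numerical condition on the fixed points: definitions. -/

set_option autoImplicit false
set_option linter.overlappingInstances false
set_option linter.unusedSectionVars false

universe u v

open FF IntermediateField Pool.Agent.W603.LV Pool.Agent.W619.TW

namespace Pool.Agent.V7H50

section

variable {k : Type v} {L : Type u} [Field k] [Field L] [Algebra k L] {n : ℕ}

/-- `N (2 g - 2) - deg ν` for the curve with function field `F` and the effective divisor `ν`
(`canDeg` is the degree `2 g - 2` of the canonical divisor). -/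
noncomputable def rdeg {F : IntermediateField k L} (N : ℕ) (ν : Place k F →₀ ℕ) : ℤ :=
  N * canDeg k F - ν.sum fun _ x => (x : ℤ)

/-- The indices of the curves for which `N K - ν i` has positive degree. -/
abbrev Big (F : Fin n → IntermediateField k L) (N : ℕ) (ν : ∀ i, Place k (F i) →₀ ℕ) : Type :=
  {i : Fin n // 0 < rdeg N (ν i)}

/-- The stratum of the product of the curves in `Big F N ν` given by the points `q i` with
`a i ≠ 0`: `some (q i)` stands for the point, `none` for the whole curve. -/
def pt (F : Fin n → IntermediateField k L) (N : ℕ) (ν : ∀ i, Place k (F i) →₀ ℕ) (a : Fin n → ℕ)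
    (q : ∀ i, Place k (F i)) (i : Big F N ν) : Option (Place k (F i)) :=
  if a i = 0 then none else some (q i)

/-- `r` times the age of a permutation `τ` of the curves together with the rotation exponents `a i`
at the points `q i`: the cycle of `i` under `τ` has length `Function.minimalPeriod τ i`, and
`{i | ∀ s, i ≤ τ ^ s i}` has one element for each orbit of `τ` (its smallest element). -/
noncomputable def age (F : Fin n → IntermediateField k L) (N : ℕ)
    (ν : ∀ i, Place k (F i) →₀ ℕ) (τ : Equiv.Perm (Fin n)) (r : ℕ) (a : Fin n → ℕ)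
    (q : ∀ i, Place k (F i)) : ℝ :=
  ∑ i, (a i : ℝ) * (N + ν i (q i)) / Function.minimalPeriod τ i +
    N * r * (n - ({i : Fin n | ∀ s : ℕ, i ≤ (τ ^ s) i}.ncard : ℝ)) / 2

/-- The automorphism `g` is trivial on `Y` (with function field `M`), or it is trivial on the
residue field of a place of `Y` (the elements of `M` which `g` maps outside `M` are not considered).
If `g` acts on a smooth projective model of `Y`, then this means that it has a fixed point there. -/
def FixIn (M : IntermediateField k L) (g : L ≃ₐ[k] L) : Prop :=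
  (∀ y y' : M, (y' : L) = g y → y' = y) ∨
    ∃ v : Place k M, ∀ y y' : M, (y' : L) = g y → 0 ≤ v.ord y → y' = y ∨ 1 ≤ v.ord (y' - y)

/-- The condition on the ages, for a finite group `G` permuting the curves through `σ`.
Let `g ≠ 1` in `G` have a fixed point on `Y` (in the sense of `FixIn`) and order `r`, let `l i` be the length of the cycle of `i` under `σ g`, fix a
point `q i` on each of the curves `F i` on which `g ^ l i` is not trivial, let `g` map these points
to each other, and let `g ^ l i` act on the cotangent space at `q i` by `ζ ^ a i` with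
`0 < a i < r`, where `ζ` is a primitive `r`-th root of unity; put `a i = 0` for the curves on which
`g ^ l i` is trivial (and let `q i` be any point of these). Then
`N r ≤ ∑ i, a i (N + ν i (q i)) / l i + N r (n - o) / 2`, where `o` is the number of orbits of
`σ g` (this is `age`), or the stratum given by the `q i` with `a i ≠ 0` belongs to the finite set
`S`, and the sum of the right hand side and of `wt i * a i / l i` is at least `N r` for each of the
curves in `Big F N ν` with `a i ≠ 0`, where `wt i` is the weight of the stratum. -/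
def AgeCond (M : IntermediateField k L) (G : Subgroup (L ≃ₐ[k] L)) (σ : G →* Equiv.Perm (Fin n))
    (F : Fin n → IntermediateField k L) (N : ℕ)
    (ν : ∀ i, Place k (F i) →₀ ℕ) (S : Finset (∀ i : Big F N ν, Option (Place k (F i))))
    (wt : (∀ i : Big F N ν, Option (Place k (F i))) → Big F N ν → ℝ) : Prop :=
  ∀ g : G, g ≠ 1 → FixIn M (g : L ≃ₐ[k] L) → ∀ ζ : k, IsPrimitiveRoot ζ (orderOf g) →
    ∀ (a : Fin n → ℕ) (q : ∀ i, Place k (F i)),
      (∀ i, (a i = 0 ∧ ∀ z ∈ F i,
          ((g ^ Function.minimalPeriod (σ g) i : G) : L ≃ₐ[k] L) z = z) ∨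
        (0 < a i ∧ a i < orderOf g ∧
          IsRot (F i) ((g ^ Function.minimalPeriod (σ g) i : G) : L ≃ₐ[k] L) (q i) (ζ ^ a i))) →
      (∀ i, a i ≠ 0 → ∀ (z : F i) (z' : F (σ g i)), (z' : L) = (g : L ≃ₐ[k] L) z →
        (q (σ g i)).ord z' = (q i).ord z) →
      (N : ℝ) * orderOf g ≤ age F N ν (σ g) (orderOf g) a q ∨
        (pt F N ν a q ∈ S ∧ ∀ i : Big F N ν, a i ≠ 0 →
          (N : ℝ) * orderOf g ≤ age F N ν (σ g) (orderOf g) a q +
            wt (pt F N ν a q) i * (a i / Function.minimalPeriod (σ g) (i : Fin n)))

open scoped Classical in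
/-- The condition on the volumes: the weights are not negative, and the sum over the strata `p` in
`S` of `(1 / s!) ∏ i, v i`, where `v i` is the weight if `p i` is a point and
`N (2 g_i - 2) - deg (ν i)` if `p i` is the whole curve, and `s` is the number of the points, is
smaller than the product of all the numbers `N (2 g_i - 2) - deg (ν i)`. -/
def VolCond (F : Fin n → IntermediateField k L) (N : ℕ) (ν : ∀ i, Place k (F i) →₀ ℕ)
    (S : Finset (∀ i : Big F N ν, Option (Place k (F i))))
    (wt : (∀ i : Big F N ν, Option (Place k (F i))) → Big F N ν → ℝ) : Prop :=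
  (∀ p ∈ S, ∀ i, 0 ≤ wt p i) ∧
    ∑ p ∈ S, (∏ i, if p i = none then (rdeg N (ν i) : ℝ) else wt p i) /
        (Fintype.card {i // p i ≠ none}).factorial <
      ∏ i : Big F N ν, (rdeg N (ν i) : ℝ)

/-- `N K - ν` is `ℚ`-effective: there is a nonzero form `φ (dx) ^ (r N)` (where `D = d/dx`) which
vanishes along `r ν`. -/
def SubCan {F : IntermediateField k L} (N : ℕ) (ν : Place k F →₀ ℕ) : Prop :=
  ∃ (r : ℕ) (D : Derivation k F F) (φ : F), 1 ≤ r ∧ D ≠ 0 ∧ φ ≠ 0 ∧
    ∀ (q : Place k F) (t : F), q.ord t = 1 → (r : ℤ) * (N * q.ord (D t) + ν q) ≤ q.ord φ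

/-- The numerical condition for nonvanishing: for some `N ≥ 1`, effective divisors `ν i` on the
curves, and weights, the conditions on the ages and the volumes hold, and `N K - ν i` has positive
degree or is `ℚ`-effective for each of the irrational curves. -/
def NumCond (M : IntermediateField k L) (G : Subgroup (L ≃ₐ[k] L)) (σ : G →* Equiv.Perm (Fin n))
    (F : Fin n → IntermediateField k L) : Prop :=
  ∃ (N : ℕ) (ν : ∀ i, Place k (F i) →₀ ℕ) (S : Finset (∀ i : Big F N ν, Option (Place k (F i))))
    (wt : (∀ i : Big F N ν, Option (Place k (F i))) → Big F N ν → ℝ),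
    1 ≤ N ∧ AgeCond M G σ F N ν S wt ∧ VolCond F N ν S wt ∧
      ∀ i, (¬ ∃ t : F i, k⟮t⟯ = ⊤) → 0 < rdeg N (ν i) ∨ SubCan N (ν i)

/-- The numerical condition for abundance: for some `N ≥ 1`, effective divisors `ν i` on the
curves, and weights, the conditions on the ages and the volumes hold, and `N K - ν i` has positive
degree for each of the curves of genus at least two and is `ℚ`-effective for each of the elliptic
curves. -/
def NumCondPos (M : IntermediateField k L) (G : Subgroup (L ≃ₐ[k] L))
    (σ : G →* Equiv.Perm (Fin n)) (F : Fin n → IntermediateField k L) : Prop :=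
  ∃ (N : ℕ) (ν : ∀ i, Place k (F i) →₀ ℕ) (S : Finset (∀ i : Big F N ν, Option (Place k (F i))))
    (wt : (∀ i : Big F N ν, Option (Place k (F i))) → Big F N ν → ℝ),
    1 ≤ N ∧ AgeCond M G σ F N ν S wt ∧ VolCond F N ν S wt ∧
      ∀ i, (0 < canDeg k (F i) → 0 < rdeg N (ν i)) ∧ (canDeg k (F i) = 0 → SubCan N (ν i))

end

end Pool.Agent.V7H50
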