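import Pool.Agent.W381.PG.GaussA
import Pool.Agent.W824.PG.Many

/-! Products of functions on independent curves are linearly independent. -/

set_option autoImplicit false
set_option linter.overlappingInstances false
set_option linter.unusedSectionVars false

open FF IntermediateField Pool.Agent.W619.PQ Pool.Agent.W619.PL Pool.Agent.W619.TW
  Pool.Agent.W603.LV

namespace Pool.Agent.V7H50

universe u v

section

variable {k : Type v} {L : Type u} [Field k] [Field L] [Algebra k L]

theorem trans_iSup {ι : Type*} (F : ι → IntermediateField k L) [∀ i, IsFF k (F i)]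
    (x : ∀ i, F i) (hx : AlgebraicIndependent k (fun i => (x i : L))) (s : Finset ι) {j : ι}
    (hj : j ∉ s) (z : F j) (hz : Transcendental k z) :
    Transcendental ↥(⨆ i ∈ s, F i) (z : L) := by
  intro halg
  have hxt : ∀ i, Transcendental k (x i) := fun i h => hx.transcendental i (h.algebraMap (A := L))
  let S : IntermediateField k L := adjoin k ((fun i => (x i : L)) '' (s : Set ι))
  let A : IntermediateField S L := algebraicClosure S L
  have hA : (⨆ i ∈ s, F i) ≤ A.restrictScalars k := by
    refine iSup₂_le fun i hi y hy => ?_
    rw [mem_restrictScalars, mem_algebraicClosure_iff]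
    exact alg_of_mem (F i) (hxt i) S (subset_adjoin k _ ⟨i, hi, rfl⟩) ⟨y, hy⟩
  let f : ↥(⨆ i ∈ s, F i) →+* A := ((⨆ i ∈ s, F i).val : ↥(⨆ i ∈ s, F i) →+* L).codRestrict A
    fun y => hA y.2
  have h2 : IsAlgebraic A (z : L) := halg.ringHom_of_comp_eq f (RingHom.id L) f.injective
    (by ext y; rfl)
  have h4 : Algebra.IsAlgebraic S A := algebraicClosure.isAlgebraic S L
  have h5 : IsAlgebraic S (z : L) := IsAlgebraic.restrictScalars S h2
  have h6 : (z : L) ∈ A.restrictScalars k := by
    rw [mem_restrictScalars, mem_algebraicClosure_iff]
    exact h5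
  have h7 := alg_of_mem (F j) hz (A.restrictScalars k) h6 (x j)
  have h8 : IsAlgebraic A (x j : L) := h7
  have h9 : IsAlgebraic S (x j : L) := IsAlgebraic.restrictScalars S h8
  have h10 : IsAlgebraic (Algebra.adjoin k ((fun i => (x i : L)) '' (s : Set ι))) (x j : L) := by
    open scoped algebraAdjoinAdjoin in
    have h11 : Algebra.IsAlgebraic (Algebra.adjoin k ((fun i => (x i : L)) '' (s : Set ι)))
      (IntermediateField.adjoin k ((fun i => (x i : L)) '' (s : Set ι))) := inferInstance
    open scoped algebraAdjoinAdjoin in
    exact IsAlgebraic.restrictScalars _ h9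
  exact hx.transcendental_adjoin (s := (s : Set ι)) (by simpa using hj) h10

variable [CharZero k] [IsAlgClosed k]

theorem ld {M F : IntermediateField k L} (hF : IsFF k F)
    (htr : ∀ x : F, Transcendental k x → Transcendental M (x : L)) {ι : Type*} (β : ι → F)
    (hβ : LinearIndependent k β) : LinearIndependent M (fun i => (β i : L)) := by
  let N : IntermediateField k L := M ⊔ F
  have hMN : M ≤ N := le_sup_left
  have hFN : F ≤ N := le_sup_right
  let M0 : IntermediateField k N := restrict hMN
  let F0 : IntermediateField k N := restrict hFN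
  let eF := restrictAlgEquiv hFN
  let eM := restrictAlgEquiv hMN
  have hF0 : IsFF k F0 := Pool.Agent.W824.PG.isFF_equiv eF hF
  have hcoeF : ∀ z : F, (((eF z : F0) : N) : L) = z := fun z => rfl
  have hcoeM : ∀ z : M, (((eM z : M0) : N) : L) = z := fun z => rfl
  have hsup0 : M0 ⊔ F0 = ⊤ := by
    apply lift_injective N
    rw [lift_sup, lift_top, lift_restrict, lift_restrict]
  have hcur : Cur M0 F0 := by
    refine ⟨hF0, fun x hx halg => ?_, hsup0⟩
    have h1 : Transcendental k (eF.symm x) := fun h => hx (by
      have := h.algHom (eF : F →ₐ[k] F0)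
      simpa using this)
    refine htr _ h1 ?_
    have h2 : ((eF.symm x : F) : L) = ((x : N) : L) := by
      have := hcoeF (eF.symm x)
      rw [eF.apply_symm_apply] at this
      exact this.symm
    rw [h2]
    refine halg.ringHom_of_comp_eq (eM.symm : M0 →+* M) (N.val : N →+* L)
      (eM.symm : M0 →+* M).injective ?_
    ext y
    have := hcoeM (eM.symm y)
    rw [eM.apply_symm_apply] at this
    exact this.symm
  have h1 : LinearIndependent k (fun i => eF (β i)) :=
    hβ.map' (eF : F ≃ₐ[k] F0).toLinearMap (LinearMap.ker_eq_bot.2 eF.injective)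
  have h2 := Pool.Agent.W381.PG.linDisj' hcur _ h1
  rw [linearIndependent_iff'] at h2 ⊢
  intro s g hg i hi
  have h3 := h2 s (fun i => eM (g i)) (by
    apply Subtype.ext
    have h4 : (N.val (∑ i ∈ s, (eM (g i)) • ((eF (β i) : F0) : N)) : L) =
        ∑ i ∈ s, g i • (β i : L) := by
      rw [map_sum]
      rfl
    have h5 : (N.val (∑ i ∈ s, (eM (g i)) • ((eF (β i) : F0) : N)) : L) = N.val 0 := by
      rw [h4, hg, map_zero]
    exact h5) i hi
  exact (map_eq_zero eM).1 h3

open scoped Classical in
/-- Products of linearly independent functions on independent curves are linearly independent. -/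
theorem indep_prod {ι : Type*} [Fintype ι] (F : ι → IntermediateField k L) [∀ i, IsFF k (F i)]
    (x : ∀ i, F i) (hx : AlgebraicIndependent k (fun i => (x i : L)))
    {κ : ι → Type*} [∀ i, Fintype (κ i)] (β : ∀ i, κ i → F i)
    (hβ : ∀ i, LinearIndependent k (β i)) (c : (∀ i, κ i) → k)
    (hc : ∑ K, c K • ∏ i, (β i (K i) : L) = 0) : c = 0 := by
  have key : ∀ (s : Finset ι) (K0 : ∀ i, κ i) (c : (∀ i, κ i) → k),
      (∀ K, c K ≠ 0 → ∀ i, i ∉ s → K i = K0 i) →
      ∑ K, c K • ∏ i ∈ s, (β i (K i) : L) = 0 → c = 0 := by
    intro s
    induction s using Finset.induction_on with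
    | empty =>
      intro K0 c h1 h2
      funext K
      by_contra hK
      have h3 : K = K0 := funext fun i => h1 K hK i (Finset.notMem_empty i)
      have h4 : ∑ K, c K • ∏ i ∈ (∅ : Finset ι), (β i (K i) : L) = c K0 • (1 : L) := by
        rw [Finset.sum_eq_single K0]
        · simp
        · intro K' _ hK'
          have : c K' = 0 := by
            by_contra hne
            exact hK' (funext fun i => h1 K' hne i (Finset.notMem_empty i))
          rw [this, zero_smul]
        · intro h; exact absurd (Finset.mem_univ _) h
      rw [h4, h3.symm] at h2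
      have h5 : c K = 0 := by
        rcases smul_eq_zero.1 h2 with h | h
        · exact h
        · exact absurd h one_ne_zero
      exact hK h5
    | insert j s hj ih =>
      intro K0 c h1 h2
      -- group according to the value at `j`
      have hmem : ∀ (l : κ j), ∑ K, (if K j = l then c K else 0) • ∏ i ∈ s, (β i (K i) : L) ∈
          ⨆ i ∈ s, F i := by
        intro l
        refine sum_mem fun K _ => ?_
        refine IntermediateField.smul_mem _ ?_
        refine prod_mem fun i hi => ?_
        exact (le_iSup₂ (f := fun i (_ : i ∈ s) => F i) i hi) (β i (K i)).2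
      have h3 := ld (M := ⨆ i ∈ s, F i) (F := F j) inferInstance
        (fun z hz => trans_iSup F x hx s hj z hz) (β j) (hβ j)
      rw [Fintype.linearIndependent_iff] at h3
      have h4 := h3 (fun l => ⟨_, hmem l⟩) (by
        have h5 : ∑ K, c K • ∏ i ∈ insert j s, (β i (K i) : L) =
            ∑ l : κ j, ∑ K, (if K j = l then c K else 0) • ((∏ i ∈ s, (β i (K i) : L)) *
              (β j l : L)) := by
          rw [Finset.sum_comm]
          refine Finset.sum_congr rfl fun K _ => ?_
          rw [Finset.sum_eq_single (K j)]
          · rw [if_pos rfl, Finset.prod_insert hj, mul_comm]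
          · intro l _ hl
            rw [if_neg (Ne.symm hl), zero_smul]
          · intro h; exact absurd (Finset.mem_univ _) h
        rw [h5] at h2
        rw [← h2]
        refine Finset.sum_congr rfl fun l _ => ?_
        change (∑ K, (if K j = l then c K else 0) • ∏ i ∈ s, (β i (K i) : L)) * (β j l : L) = _
        rw [Finset.sum_mul]
        refine Finset.sum_congr rfl fun K _ => ?_
        rw [smul_mul_assoc])
      funext K
      have h5 := ih (Function.update K0 j (K j)) (fun K' => if K' j = K j then c K' else 0) (by
        intro K' hK' i hi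
        have h6 : K' j = K j := by
          by_contra hne
          exact hK' (if_neg hne)
        rw [if_pos h6] at hK'
        by_cases hij : i = j
        · subst hij
          rw [Function.update_self, h6]
        · rw [Function.update_of_ne hij]
          exact h1 K' hK' i (by
            rw [Finset.mem_insert]
            push Not
            exact ⟨hij, hi⟩)) (congrArg Subtype.val (h4 (K j)))
      have h6 := congrFun h5 K
      simpa using h6
  funext K
  exact congrFun (key Finset.univ K c (fun _ _ i hi => absurd (Finset.mem_univ i) hi) hc) K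

end

end Pool.Agent.V7H50
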