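import Pool.Agent.V7H50.Defs

/-! The numerical condition for pairs: definitions. -/

set_option autoImplicit false
set_option linter.overlappingInstances false
set_option linter.unusedSectionVars false

universe u v

open FF IntermediateField Pool.Agent.W603.LV Pool.Agent.W619.TW

namespace Pool.Agent.V7H50

section

variable {k : Type v} {L : Type u} [Field k] [Field L] [Algebra k L] {n : ℕ}

/-- `b` is the ramification index of the place `w` over the variety with function field `M`; it is
`0` if `w` is trivial on `M`. -/
def RamIn (M : IntermediateField k L) (w : Place k L) (b : ℕ) : Prop :=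
  (b = 0 ∧ ∀ z ∈ M, w.ord z = 0) ∨ ∃ v : Place k M, Over w v b

/-- The place `w` of `L` has ramification index `B i` over the point `q i` of the `i`-th curve;
`B i = 0` means that `w` is trivial on `F i` (and `q i` is irrelevant then). -/
def Centre (F : Fin n → IntermediateField k L) (w : Place k L) (B : Fin n → ℕ)
    (q : ∀ i, Place k (F i)) : Prop :=
  ∀ i, (B i = 0 ∧ ∀ z ∈ F i, w.ord z = 0) ∨ Over w (q i) (B i)

/-- A lower bound for the log order of the forms at a place with ramification index `b` over `Y`,
`B i` over the point `q i` of the `i`-th curve, and with a generator of its inertia group which has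
order `e` and permutes the curves by `τ`:
`N b + ∑ i, B i (N + ν i (q i)) + N e (n - o) / 2`, where `o` is the number of the orbits of `τ`. -/
noncomputable def logOrd (F : Fin n → IntermediateField k L) (N : ℕ)
    (ν : ∀ i, Place k (F i) →₀ ℕ) (τ : Equiv.Perm (Fin n)) (e b : ℕ) (B : Fin n → ℕ)
    (q : ∀ i, Place k (F i)) : ℝ :=
  N * b + ∑ i, (B i : ℝ) * (N + ν i (q i)) +
    N * e * (n - ({i : Fin n | ∀ s : ℕ, i ≤ (τ ^ s) i}.ncard : ℝ)) / 2

/-- The condition at the prime divisors of `X` (the places with `T`), for a finite group `G`
permuting the curves through `σ`, and for a divisor `Δ` on `X`.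
Let `P` be a prime divisor of `X`, `w` a place of `L` over `P`, with ramification index `e > 1`,
and let `g` in `G` be a generator of the inertia group of `w` (of order `e`, and trivial on the
residue field of `w`). Let `b` be the ramification index of `w` over `Y`, and `B i` the one over the
point `q i` of the `i`-th curve. Then `N e (1 - Δ P)`, which is `N` times the log discrepancy of
the pull back of `(X, Δ)` along `w`, is at most `logOrd`, or the stratum given by the `q i` with
`B i ≠ 0` belongs to the finite set `S`, and the sum of `logOrd` and of `wt i * B i` is at least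
`N e (1 - Δ P)` for each of the curves in `Big F N ν` with `B i ≠ 0`, where `wt i` is the weight of
the stratum. -/
def PairCond (M : IntermediateField k L) (G : Subgroup (L ≃ₐ[k] L)) (σ : G →* Equiv.Perm (Fin n))
    (F : Fin n → IntermediateField k L) (N : ℕ)
    (ν : ∀ i, Place k (F i) →₀ ℕ) (S : Finset (∀ i : Big F N ν, Option (Place k (F i))))
    (wt : (∀ i : Big F N ν, Option (Place k (F i))) → Big F N ν → ℝ)
    (T : Place k (fixedField G) → Prop) (Δ : Place k (fixedField G) → ℚ) : Prop :=
  ∀ (P : Place k (fixedField G)) (w : Place k L) (e : ℕ) (g : G), T P → Over w P e → 1 < e →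
    orderOf g = e →
    (∀ z : L, w.Reg z → (g : L ≃ₐ[k] L) z = z ∨ 1 ≤ w.ord ((g : L ≃ₐ[k] L) z - z)) →
    ∀ (b : ℕ) (B : Fin n → ℕ) (q : ∀ i, Place k (F i)), RamIn M w b → Centre F w B q →
      (N : ℝ) * e * (1 - Δ P) ≤ logOrd F N ν (σ g) e b B q ∨
        (pt F N ν B q ∈ S ∧ ∀ i : Big F N ν, B i ≠ 0 →
          (N : ℝ) * e * (1 - Δ P) ≤ logOrd F N ν (σ g) e b B q + wt (pt F N ν B q) i * B i)

/-- The numerical condition for pairs: for some `N ≥ 1`, effective divisors `ν i` on the curves, and
weights, the conditions at the prime divisors and on the volumes hold, and `N K - ν i` has positive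
degree for each of the curves of genus at least two and is `ℚ`-effective for each of the elliptic
curves. -/
def NumCondPair (M : IntermediateField k L) (G : Subgroup (L ≃ₐ[k] L))
    (σ : G →* Equiv.Perm (Fin n)) (F : Fin n → IntermediateField k L)
    (T : Place k (fixedField G) → Prop) (Δ : Place k (fixedField G) → ℚ) : Prop :=
  ∃ (N : ℕ) (ν : ∀ i, Place k (F i) →₀ ℕ) (S : Finset (∀ i : Big F N ν, Option (Place k (F i))))
    (wt : (∀ i : Big F N ν, Option (Place k (F i))) → Big F N ν → ℝ),
    1 ≤ N ∧ PairCond M G σ F N ν S wt T Δ ∧ VolCond F N ν S wt ∧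
      ∀ i, (0 < canDeg k (F i) → 0 < rdeg N (ν i)) ∧ (canDeg k (F i) = 0 → SubCan N (ν i))

end

end Pool.Agent.V7H50
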