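import Pool.Agent.V7H50.Reg
import Pool.Agent.W619.Y.FinP

/-! Regularity at a place of the quotient, for pairs, and the forms on `Y`. -/

set_option autoImplicit false
set_option linter.overlappingInstances false
set_option linter.unusedSectionVars false

universe u v

open Algebra FF IntermediateField Pool.Agent.W619.PQ Pool.Agent.W619.PL Pool.Agent.W619.TW
  Pool.Agent.W603.LV Pool.Agent.W619.Y Pool.Agent.W140.PG.REG2

namespace Pool.Agent.V7H50

section

/-- From an estimate for logarithmic vector fields at `w` to an estimate at `v`. -/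
theorem coreP (k : Type v) (L : Type u) [Field k] [CharZero k] [IsAlgClosed k]
    [Field L] [Algebra k L] (N : ℕ) (G : Subgroup (L ≃ₐ[k] L)) [Finite G]
    (htr : Algebra.trdeg k L = (N : ℕ)) (v : Place k (fixedField G)) (w : Place k L) (e : ℕ)
    (hwv : Over w v e) (t : Fin N → L) (A : L) (m : ℕ) (Q : Prop) (X : ℤ) (hX : 0 ≤ X)
    (hreg : e = 1 ∧ Q → ∀ D' : Fin N → Derivation k L L,
      (∀ j z, w.Reg z → w.Reg (D' j z)) →
      Ge w 0 (A * (Matrix.of fun i j => D' j (t i)).det ^ m))
    (hlg : ¬ (e = 1 ∧ Q) → ∀ E' : Fin N → Derivation k L L,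
      (∀ j z, w.Reg (E' j z / z)) →
      (∀ (g : G) j z, (g : L ≃ₐ[k] L) (E' j z) = E' j ((g : L ≃ₐ[k] L) z)) →
      Ge w (m * e - X) (A * (Matrix.of fun i j => E' j (t i)).det ^ m))
    (D : Fin N → Derivation k (fixedField G) (fixedField G))
    (D' : Fin N → Derivation k L L)
    (hD : ∀ j, Pres v (D j)) (hDD : ∀ j (f : fixedField G), D' j (f : L) = (D j f : L)) :
    Ge w (-X) (A * (Matrix.of fun i j => D' j (t i)).det ^ m) := by
  obtain ⟨π, hπ0, hπ⟩ := w.surj
  have hc : Ge w X (π ^ X) := by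
    right
    rw [w.ord_zpow, hπ, mul_one]
  have h1 := core k L N G htr v w e hwv t (π ^ X * A) m Q ?_ ?_ D D' hD hDD
  · refine Ge.of_mul' (P := w) (N := -X) (m := X) (zpow_ne_zero X hπ0) ?_ ?_
    · rw [w.ord_zpow, hπ, mul_one]
    · rw [← mul_assoc, neg_add_cancel]
      exact h1
  · intro h D'' hD''
    rw [mul_assoc]
    exact (hc.mul (hreg h D'' hD'')).mono (by omega)
  · intro h E' hE' hE2
    rw [mul_assoc]
    exact (hc.mul (hlg h E' hE' hE2)).mono (by omega)

/-- `YGood` with a uniformizer among the coordinates, `b` being the ramification index. -/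
def YGoodB {k : Type v} {L : Type u} [Field k] [Field L] [Algebra k L] (d m b : ℕ) (w : Place k L)
    (y : Fin d → L) (a : L) : Prop :=
  ∃ (Z : Matrix (Fin d) (Fin d) L) (z : Fin d → L), (∀ c, w.Reg (z c)) ∧
    (∀ (D : Derivation k L L) l, D (y l) = ∑ c, Z l c * D (z c)) ∧ Ge w 0 (a * Z.det ^ m) ∧
    (b = 0 ∨ ∃ i0, z i0 ≠ 0 ∧ w.ord (z i0) = b)

theorem YGoodB.good {k : Type v} {L : Type u} [Field k] [Field L] [Algebra k L] {d m b : ℕ}
    {w : Place k L} {y : Fin d → L} {a : L} (h : YGoodB d m b w y a) : YGood d m w y a := by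
  obtain ⟨Z, z, h1, h2, h3, -⟩ := h
  exact ⟨Z, z, h1, h2, h3⟩

theorem YGoodB.pow {k : Type v} {L : Type u} [Field k] [Field L] [Algebra k L] {d m b : ℕ}
    {w : Place k L} {y : Fin d → L} {a : L} (h : YGoodB d m b w y a) (r : ℕ) :
    YGoodB d (r * m) b w y (a ^ r) := by
  obtain ⟨Z, z, hz, hZ, hZa, hb⟩ := h
  refine ⟨Z, z, hz, hZ, ?_, hb⟩
  have h1 := hZa.pow r
  rw [mul_pow, ← pow_mul, mul_comm m r, mul_zero] at h1
  exact h1

theorem ylocB (k : Type v) (L : Type u) [Field k] [CharZero k] [Field L] [Algebra k L]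
    (M : IntermediateField k L) (d n m : ℕ) (hd : Algebra.trdeg k M = d)
    (hn : Algebra.trdeg k L = n)
    (hfin : ∀ y : Fin d → M, IsTranscendenceBasis k y →
      FiniteDimensional (IntermediateField.adjoin k (Set.range y)) M)
    (η : (Fin d → Derivation k M M) → M) (hη : IsPluriForm k M d m η)
    (hreg : ∀ u : Place k M, IsDivisorial u d → RegularAt u d η)
    (y : Fin d → M) (E : Fin d → Derivation k M M) (hy : IsTranscendenceBasis k y)
    (hE : ∀ i j, E i (y j) = if i = j then 1 else 0)
    (w : Place k L) (hw : IsDivisorial w n) :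
    ∃ b : ℕ, ((b = 0 ∧ ∀ z ∈ M, w.ord z = 0) ∨ ∃ v : Place k M, Over w v b) ∧
      YGoodB d m b w (fun l => (y l : L)) ((η E : M) : L) := by
  by_cases htriv : ∃ f : M, w.ord (algebraMap M L f) ≠ 0
  · obtain ⟨e, u, hu⟩ := exists_over (K := M) w htriv
    have hdiv : IsDivisorial u d := pDIVR k M L d n u w e hd hn hu hw
    obtain ⟨y', E', i0, hy', hE', hi0, hyr, hpres⟩ := pFRAME k M d hd hfin u hdiv
    have hregL : ∀ f : M, u.Reg f → w.Reg (algebraMap M L f) := by
      intro f hf
      rcases hf with hf | hf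
      · left; rw [hf, map_zero]
      · right
        rw [hu.2]
        exact mul_nonneg (by positivity) hf
    refine ⟨e, Or.inr ⟨u, hu⟩, Matrix.of fun l c => algebraMap M L (E' c (y l)),
      fun c => algebraMap M L (y' c), fun c => hregL _ (hyr c), ?_, ?_, Or.inr ⟨i0, ?_, ?_⟩⟩
    · intro D l
      exact Pool.Agent.W308.PG.YLOC.expand y' E' hy' hE' D (y l)
    · set A : Matrix (Fin d) (Fin d) M := Matrix.of fun c l => E' c (y l) with hA
      have h1 : η E' = A.det ^ m * η E := by
        have h2 := hη A E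
        have h3 : (fun i => ∑ j, A i j • E j) = E' := by
          funext i
          exact (Pool.Agent.W308.PG.YLOC.expandK y E hy hE (E' i)).symm
        rw [h3] at h2
        exact h2
      have h4 : (Matrix.of fun l c => algebraMap M L (E' c (y l))).det = algebraMap M L A.det := by
        rw [RingHom.map_det, ← Matrix.det_transpose]
        rfl
      rw [h4]
      have h5 : ((η E : M) : L) * algebraMap M L A.det ^ m = algebraMap M L (η E') := by
        rw [h1, map_mul, map_pow, mul_comm]
        rfl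
      rw [h5]
      exact hregL _ (hreg u hdiv E' hpres)
    · intro h0
      have h1 : y' i0 = 0 := (map_eq_zero (algebraMap M L)).1 h0
      rw [h1, u.ord_zero] at hi0
      omega
    · rw [hu.2, hi0, mul_one]
  · push Not at htriv
    refine ⟨0, Or.inl ⟨rfl, fun z hz => htriv ⟨z, hz⟩⟩, 1, fun l => (y l : L),
      fun c => Or.inr (htriv (y c)).ge, ?_, ?_, Or.inl rfl⟩
    · intro D l
      rw [Finset.sum_eq_single l]
      · rw [Matrix.one_apply_eq, one_mul]
      · intro c _ hc
        rw [Matrix.one_apply_ne (Ne.symm hc), zero_mul]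
      · intro h
        exact absurd (Finset.mem_univ l) h
    · rw [Matrix.det_one, one_pow, mul_one]
      exact Or.inr (htriv (η E)).ge

end

end Pool.Agent.V7H50
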