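import Pool.Agent.W619.PQ.Local

/-! Local expansions of sums of products of functions on curves. -/

set_option autoImplicit false
set_option linter.overlappingInstances false
set_option linter.unusedSectionVars false

open Polynomial FF IntermediateField Pool.Agent.W619.PQ Pool.Agent.W603.LV

namespace Pool.Agent.V7H50

section

variable {k K : Type*} [Field k] [Field K] [Algebra k K]

theorem ge_smul {w : Place k K} {X : ℤ} {f : K} (c : k) (h : Ge w X f) : Ge w X (c • f) := by
  rw [Algebra.smul_def]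
  have := (Ge.const (P := w) c).mul h
  rwa [zero_add] at this

theorem ge_prod0 {ι : Type*} {w : Place k K} (s : Finset ι) (f : ι → K)
    (h : ∀ i ∈ s, Ge w 0 (f i)) : Ge w 0 (∏ i ∈ s, f i) := by
  have := Ge.prod (P := w) s f (fun _ => 0) h
  simpa using this

theorem ge_prod_sub {ι : Type*} {w : Place k K} {X : ℤ} (s : Finset ι) (g T : ι → K)
    (hg : ∀ i, Ge w 0 (g i)) (hT : ∀ i, Ge w 0 (T i)) (h : ∀ i, Ge w X (g i - T i)) :
    Ge w X (∏ i ∈ s, g i - ∏ i ∈ s, T i) := by
  classical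
  induction s using Finset.induction_on with
  | empty => left; simp
  | insert a s ha ih =>
    rw [Finset.prod_insert ha, Finset.prod_insert ha]
    have e : g a * ∏ i ∈ s, g i - T a * ∏ i ∈ s, T i =
        g a * (∏ i ∈ s, g i - ∏ i ∈ s, T i) + (g a - T a) * ∏ i ∈ s, T i := by ring
    rw [e]
    have h1 := (hg a).mul ih
    have h2 := (h a).mul (ge_prod0 (w := w) s T fun i _ => hT i)
    rw [zero_add] at h1
    rw [add_zero] at h2
    exact h1.add h2

variable [IsAlgClosed k] [CharZero k] [IsFF k K]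

/-- Expansion of a regular function in powers of a uniformizer. -/
theorem taylor (P : Place k K) {π : K} (hπ : P.ord π = 1) {f : K} (hf : Ge P 0 f) (N : ℕ) :
    ∃ t : ℕ → k, Ge P N (f - ∑ α ∈ Finset.range N, t α • π ^ α) := by
  obtain ⟨p, hp⟩ := approx P hπ hf N
  refine ⟨p.coeff, ?_⟩
  have hπg : ∀ α : ℕ, Ge P α (π ^ α) := fun α => Or.inr (by rw [P.ord_pow, hπ, mul_one])
  have e : f - ∑ α ∈ Finset.range N, p.coeff α • π ^ α =
      (f - aeval π p) + ∑ α ∈ Finset.range (p.natDegree + 1 + N) \ Finset.range N,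
        p.coeff α • π ^ α := by
    have h1 : aeval π p = ∑ α ∈ Finset.range (p.natDegree + 1 + N), p.coeff α • π ^ α :=
      aeval_eq_sum_range' (by omega) π
    have h2 := Finset.sum_sdiff (s₁ := Finset.range N)
      (s₂ := Finset.range (p.natDegree + 1 + N)) (f := fun α => p.coeff α • π ^ α)
      (Finset.range_subset_range.2 (by omega))
    rw [h1, ← h2]
    ring
  rw [e]
  refine hp.add (Ge.sum _ _ fun α hα => ge_smul _ ((hπg α).mono ?_))
  rw [Finset.mem_sdiff, Finset.mem_range, Finset.mem_range] at hα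
  have : N ≤ α := by omega
  exact_mod_cast this

end

section

variable {k L : Type*} [Field k] [Field L] [Algebra k L] [CharZero k] [IsAlgClosed k]

open scoped Classical in
/-- The order at a place `w` of a sum of products whose expansion has no terms with exponents
in `Λ`. -/
theorem ge_of_expansion {ι : Type*} [Fintype ι] (E : ι → IntermediateField k L) {κ : Type*}
    [Fintype κ] (C : κ → L) (g : κ → ∀ i, E i) (p : ∀ i, Place k (E i)) (u : ∀ i, E i)
    (hu : ∀ i, (p i).ord (u i) = 1) (A : ℕ) (t : κ → ι → ℕ → k)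
    (hg : ∀ K i, Ge (p i) 0 (g K i))
    (ht : ∀ K i, Ge (p i) A (g K i - ∑ α ∈ Finset.range A, t K i α • u i ^ α))
    (w : Place k L) (hC : ∀ K, Ge w 0 (C K))
    (Λ : Finset (ι → ℕ)) (hΛ : ∀ α ∈ Λ, ∑ K, (∏ i, t K i (α i)) • C K = 0)
    (b : ι → ℕ) (hw : ∀ i, Over w (p i) (b i)) (X : ℤ)
    (hX1 : ∀ i, X ≤ A * b i) (hX2 : ∀ α : ι → ℕ, α ∉ Λ → X ≤ ∑ i, (α i : ℤ) * b i) :
    Ge w X (∑ K, C K * ∏ i, (g K i : L)) := by
  have hge : ∀ i (N : ℤ) (f : E i), Ge (p i) N f → Ge w (N * b i) (f : L) := by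
    intro i N f hf
    rcases hf with rfl | hf
    · left; rfl
    · right
      have h1 := (hw i).2 f
      change w.ord (f : L) = _ at h1
      rw [h1, mul_comm N]
      exact mul_le_mul_of_nonneg_left hf (by positivity)
  have hT : ∀ K i, Ge w 0 (∑ α ∈ Finset.range A, t K i α • (u i : L) ^ α) := by
    intro K i
    refine Ge.sum _ _ fun α _ => ge_smul _ ?_
    have h1 : Ge (p i) 0 (u i) := Or.inr (by rw [hu]; norm_num)
    have h2 := (hge i 0 (u i) h1).pow α
    simpa using h2
  have hsub : ∀ K i, Ge w X ((g K i : L) - ∑ α ∈ Finset.range A, t K i α • (u i : L) ^ α) := by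
    intro K i
    have h1 := hge i A _ (ht K i)
    refine Ge.mono (hX1 i) ?_
    convert h1 using 1
    push_cast
    rfl
  have h1 : ∀ K, Ge w X (∏ i, (g K i : L) - ∏ i, ∑ α ∈ Finset.range A, t K i α • (u i : L) ^ α) :=
    fun K => ge_prod_sub Finset.univ _ _ (fun i => by simpa using hge i 0 _ (hg K i)) (hT K)
      (hsub K)
  have e : ∑ K, C K * ∏ i, (g K i : L) =
      ∑ K, C K * (∏ i, (g K i : L) - ∏ i, ∑ α ∈ Finset.range A, t K i α • (u i : L) ^ α) +
      ∑ α ∈ Fintype.piFinset (fun _ : ι => Finset.range A),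
        (∑ K, (∏ i, t K i (α i)) • C K) * ∏ i, (u i : L) ^ (α i) := by
    have e1 : ∀ K, ∏ i, ∑ α ∈ Finset.range A, t K i α • (u i : L) ^ α =
        ∑ α ∈ Fintype.piFinset (fun _ : ι => Finset.range A),
          (∏ i, t K i (α i)) • ∏ i, (u i : L) ^ (α i) := by
      intro K
      rw [Finset.prod_univ_sum]
      refine Finset.sum_congr rfl fun α _ => ?_
      rw [← Finset.prod_smul]
    have e2 : ∑ K, C K * ∏ i, ∑ α ∈ Finset.range A, t K i α • (u i : L) ^ α =
        ∑ α ∈ Fintype.piFinset (fun _ : ι => Finset.range A),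
        (∑ K, (∏ i, t K i (α i)) • C K) * ∏ i, (u i : L) ^ (α i) := by
      simp only [e1, Finset.mul_sum, Finset.sum_mul]
      rw [Finset.sum_comm]
      refine Finset.sum_congr rfl fun α _ => Finset.sum_congr rfl fun K _ => ?_
      rw [mul_smul_comm, smul_mul_assoc]
    rw [← e2, ← Finset.sum_add_distrib]
    refine Finset.sum_congr rfl fun K _ => ?_
    rw [mul_sub, sub_add_cancel]
  rw [e]
  have h3 : ∀ K, Ge w X (C K * (∏ i, (g K i : L) -
      ∏ i, ∑ α ∈ Finset.range A, t K i α • (u i : L) ^ α)) := by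
    intro K
    have h4 := (hC K).mul (h1 K)
    rwa [zero_add] at h4
  refine (Ge.sum _ _ fun K _ => h3 K).add (Ge.sum _ _ fun α _ => ?_)
  by_cases hα : α ∈ Λ
  · rw [hΛ α hα, zero_mul]
    exact Ge.zero
  · have h5 : Ge w 0 (∑ K, (∏ i, t K i (α i)) • C K) := Ge.sum _ _ fun K _ => ge_smul _ (hC K)
    have h6 : Ge w X (∏ i, (u i : L) ^ (α i)) :=
      Ge.mono (hX2 α hα) (Ge.prod _ _ _ fun i _ => by
        have h2 : Ge (p i) 1 (u i) := Or.inr (by rw [hu])
        have h3 := (hge i 1 (u i) h2).pow (α i)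
        rwa [one_mul] at h3)
    have h7 := h5.mul h6
    rwa [zero_add] at h7

end

end Pool.Agent.V7H50
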