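import Pool.Agent.V7H50.Tay
import Pool.Agent.V7H50.Lin
import Pool.Agent.V7H50.Count
import Pool.Agent.V7H50.Asym
import Pool.Agent.V7H50.Defs
import Pool.Agent.Helper386.D5V.Helper386_FF_Riemann

/-! Sums of exterior products of forms on curves, with vanishing conditions at given points. -/

set_option autoImplicit false
set_option linter.overlappingInstances false
set_option linter.unusedSectionVars false

open Polynomial FF IntermediateField Pool.Agent.W619.PQ Pool.Agent.W603.LV

namespace Pool.Agent.V7H50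

universe u v

section

variable {k : Type v} {L : Type u} [Field k] [Field L] [Algebra k L] [CharZero k] [IsAlgClosed k]

/-- The forms of weight `N m` on a curve vanishing along `m ν` and at the poles of `z`. -/
theorem exists_forms (F : IntermediateField k L) [IsFF k F] (D : Derivation k F F) (hD : D ≠ 0)
    (z : F) (N : ℕ) (ν : Place k F →₀ ℕ) (hpos : 0 ≤ rdeg N ν) : ∃ γ : ℝ, ∀ m : ℕ,
    ∃ (r : ℕ) (β : Fin r → F), LinearIndependent k β ∧ (m : ℝ) * rdeg N ν - γ ≤ r ∧
      (r : ℝ) ≤ m * rdeg N ν + 1 ∧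
      ∀ j (q : Place k F), Ge q (m * (N * vo q D + ν q) + max (-q.ord z) 0) (β j) := by
  classical
  obtain ⟨γ, -, h1, -⟩ := riemann (k := k) (K := F)
  let V : Place k F →₀ ℤ := Finsupp.ofSupportFinite (fun P => vo P D) (vo_finite hD)
  have hVa : ∀ P, V P = vo P D := fun P => rfl
  let V' : Place k F →₀ ℤ := ν.mapRange (fun x : ℕ => (x : ℤ)) rfl
  have hV'a : ∀ P, V' P = ν P := fun P => by simp [V']
  have hV : ddeg V = - canDeg k F := by
    unfold ddeg
    rw [Finsupp.sum]
    have h2 := canDeg_finset (k := k) hD V.support (fun P hP => by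
      rw [Finsupp.mem_support_iff]; exact hP)
    rw [← h2]
    refine Finset.sum_congr rfl fun P _ => ?_
    rw [deg_one, hVa]
    simp
  have hV' : ddeg V' = ν.sum fun _ x => (x : ℤ) := by
    unfold ddeg
    rw [Finsupp.sum_mapRange_index (by simp)]
    refine Finset.sum_congr rfl fun P _ => ?_
    change ((ν P : ℕ) : ℤ) * (P.deg : ℤ) = _
    rw [deg_one]
    simp
  let γ' : ℤ := max (γ + ddeg (polar (k := k) z)) 0
  refine ⟨γ', fun m => ?_⟩
  let E : Place k F →₀ ℤ := -(m • (N • V + V')) - polar (k := k) z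
  have hE : ∀ q, E q = -(m * (N * vo q D + ν q)) - max (-q.ord z) 0 := by
    intro q
    change (-(m • (N • V + V')) - polar (k := k) z) q = _
    rw [Finsupp.sub_apply, Finsupp.neg_apply, Finsupp.smul_apply, Finsupp.add_apply,
      Finsupp.smul_apply, polar_apply, hVa, hV'a]
    simp
  let r : ℕ := ⌈(m : ℝ) * rdeg N ν - γ'⌉₊
  have hr : r ≤ Module.finrank k (LL E) := by
    apply Nat.ceil_le.2
    have h2 := h1 E
    have h3 : ddeg E = m * rdeg N ν - ddeg (polar (k := k) z) := by
      change ddeg (-(m • (N • V + V')) - polar (k := k) z) = _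
      rw [ddeg_sub, ddeg_neg, ddeg_nsmul, ddeg_add, ddeg_nsmul, hV, hV']
      unfold rdeg
      ring
    rw [h3] at h2
    have h5 : γ + ddeg (polar (k := k) z) ≤ γ' := le_max_left _ _
    have h4 : ((m * rdeg N ν - γ' : ℤ) : ℝ) ≤ ((ell E : ℤ) : ℝ) := by
      exact_mod_cast (by linarith : (m * rdeg N ν - γ' : ℤ) ≤ ell E)
    unfold ell at h4
    push_cast at h4
    exact h4
  refine ⟨r, fun j => ((Module.finBasis k (LL E) (Fin.castLE hr j) : LL E) : F), ?_,
    Nat.le_ceil _, ?_, ?_⟩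
  · have h2 := (Module.finBasis k (LL E)).linearIndependent.map' (LL E).subtype
      (LinearMap.ker_eq_bot.2 Subtype.val_injective)
    exact h2.comp _ (Fin.castLE_injective hr)
  · have h6 : (0 : ℝ) ≤ γ' := by exact_mod_cast le_max_right _ _
    have h7 : (0 : ℝ) ≤ (m : ℝ) * rdeg N ν := mul_nonneg (by positivity) (by exact_mod_cast hpos)
    rcases le_or_gt 0 ((m : ℝ) * rdeg N ν - γ') with h8 | h8
    · have := Nat.ceil_lt_add_one h8
      change ((⌈(m : ℝ) * rdeg N ν - γ'⌉₊ : ℕ) : ℝ) ≤ _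
      linarith
    · have h9 : r = 0 := Nat.ceil_eq_zero.2 h8.le
      rw [h9]
      push_cast
      linarith
  · intro j q
    rcases (Module.finBasis k (LL E) (Fin.castLE hr j)).2 with h2 | h2
    · exact Or.inl h2
    · right
      have h3 := h2 q
      rw [hE] at h3
      linarith

open scoped Classical in
theorem card_sig {ι : Type} [Fintype ι] {σ : Type*} (S : Finset σ) (U : σ → ι → Prop)
    [∀ p, DecidablePred (U p)] (r : ι → ℕ) (Λ : ∀ p : S, Finset ({i // U p.1 i} → ℕ))
    (X : σ → ι → ℝ) (hr : ∀ p ∈ S, ∀ i, ¬ U p i → (r i : ℝ) ≤ X p i)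
    (hΛ : ∀ p : S, ((Λ p).card : ℝ) ≤ 1 / (Fintype.card {i // U p.1 i}).factorial *
      ∏ i : {i // U p.1 i}, X p.1 i) (hX : ∀ p ∈ S, ∀ i, U p i → 0 ≤ X p i) :
    (Fintype.card (Σ p : S, (↥(Λ p) × (∀ i : {i // ¬ U p.1 i}, Fin (r i)))) : ℝ) ≤
      ∑ p ∈ S, 1 / (Fintype.card {i // U p i}).factorial * ∏ i, X p i := by
  rw [Fintype.card_sigma]
  push_cast
  rw [← Finset.sum_coe_sort S (fun p => 1 / ((Fintype.card {i // U p i}).factorial : ℝ) *
    ∏ i, X p i)]
  refine Finset.sum_le_sum fun p _ => ?_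
  rw [Fintype.card_prod, Fintype.card_pi]
  push_cast
  simp only [Fintype.card_coe, Fintype.card_fin]
  rw [← Fintype.prod_subtype_mul_prod_subtype (U p.1) (X p.1), ← mul_assoc]
  refine mul_le_mul (hΛ p) (Finset.prod_le_prod (fun i _ => by positivity)
    fun i _ => hr p.1 p.2 i i.2) (Finset.prod_nonneg fun i _ => by positivity)
    (mul_nonneg (by positivity) (Finset.prod_nonneg fun i _ => hX p.1 p.2 i i.2))

end

section

variable {k : Type v} {L : Type u} [Field k] [Field L] [Algebra k L] [CharZero k] [IsAlgClosed k]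

open scoped Classical in
theorem exists_section {ι : Type} [Fintype ι] (E : ι → IntermediateField k L)
    [∀ i, IsFF k (E i)] (x : ∀ i, E i) (hx : AlgebraicIndependent k (fun i => (x i : L)))
    (D : ∀ i, Derivation k (E i) (E i)) (hD : ∀ i, D i ≠ 0) (z : ∀ i, E i) (N : ℕ)
    (ν : ∀ i, Place k (E i) →₀ ℕ) (hg : ∀ i, 0 < rdeg N (ν i))
    (S : Finset (∀ i, Option (Place k (E i))))
    (wt : (∀ i, Option (Place k (E i))) → ι → ℝ) (h0 : ∀ p ∈ S, ∀ i, 0 ≤ wt p i)
    (hS : ∑ p ∈ S, (∏ i, if p i = none then (rdeg N (ν i) : ℝ) else wt p i) /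
        (Fintype.card {i // p i ≠ none}).factorial < ∏ i, (rdeg N (ν i) : ℝ))
    (c : ℕ) : ∃ m0 : ℕ, ∀ m, m0 ≤ m → ∃ (κ : Type) (_ : Fintype κ) (cc : κ → k)
      (β : κ → ∀ i, E i), ∑ K, cc K • ∏ i, (β K i : L) ≠ 0 ∧
      (∀ K i (q : Place k (E i)),
        Ge q (m * (N * vo q (D i) + ν i q) + max (-q.ord (z i)) 0) (β K i)) ∧
      ∀ p ∈ S, ∀ q : ∀ i, Place k (E i), (∀ i, p i ≠ none → p i = some (q i)) →
        (∀ i, p i ≠ none → 0 < wt p i) → ∀ (w : Place k L) (b : ι → ℕ),
        (∀ i, p i ≠ none → Over w (q i) (b i)) → (∀ i, p i = none → ∀ y ∈ E i, w.ord y = 0) →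
        ∀ δ : ℝ, 0 ≤ δ → (∀ i, p i ≠ none → δ ≤ wt p i * b i) →
        ∀ X : ℤ, (X : ℝ) ≤ (m + c) * δ → Ge w X
          ((∑ K, cc K • ∏ i, (β K i : L)) * ∏ i : {i // p i ≠ none},
            ((((D i (unif (q i)) : E i) : L)⁻¹) ^ (N * m) *
              (((unif (q i) : E i) : L)⁻¹) ^ (m * ν i (q i)))) := by
  choose γ hγ using fun i => exists_forms (k := k) (E i) (D i) (hD i) (z i) N (ν i) (hg i).le
  have hpl : ∀ i, Nonempty (Place k (E i)) := fun i => by
    obtain ⟨q, -⟩ := exists_place (k := k) (K := E i)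
    exact ⟨q⟩
  let plc : S → ∀ i, Place k (E i) := fun p i => (p.1 i).getD (Classical.choice (hpl i))
  let σ : (∀ i, Option (Place k (E i))) → ℝ := fun p => ∑ i : {i // p i ≠ none}, (wt p i)⁻¹
  have hσ : ∀ p ∈ S, 0 ≤ σ p := fun p hp => Finset.sum_nonneg fun i _ => inv_nonneg.2 (h0 p hp i)
  let X : (∀ i, Option (Place k (E i))) → ι → ℝ := fun p i =>
    if p i = none then (rdeg N (ν i) : ℝ) else wt p i
  let Y : (∀ i, Option (Place k (E i))) → ι → ℝ := fun p i =>
    if p i = none then 1 else wt p i * (c + σ p)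
  obtain ⟨m1, hm1⟩ := asym S (fun p => 1 / ((Fintype.card {i // p i ≠ none}).factorial : ℝ)) X Y
    (fun i => (rdeg N (ν i) : ℝ)) γ (by
      refine lt_of_eq_of_lt (Finset.sum_congr rfl fun p _ => ?_) hS
      rw [div_mul_eq_mul_div, one_mul])
  obtain ⟨m2, hm2⟩ := exists_nat_ge (∑ i, |γ i|)
  refine ⟨max m1 m2, fun m hm => ?_⟩
  have hlt := hm1 m ((le_max_left _ _).trans hm)
  have hmγ : ∀ i, γ i ≤ m := by
    intro i
    have h1 : |γ i| ≤ ∑ i, |γ i| := Finset.single_le_sum (fun i _ => abs_nonneg (γ i))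
      (Finset.mem_univ i)
    have h2 : (m2 : ℝ) ≤ m := by exact_mod_cast (le_max_right m1 m2).trans hm
    exact (le_abs_self _).trans (h1.trans (hm2.trans h2))
  choose r β hβ hr hr' hβq using fun i => hγ i m
  have hXU : ∀ p i, p i ≠ none → m * X p i + Y p i = wt p i * (m + c + σ p) := by
    intro p i hi
    simp only [X, Y, if_neg hi]
    ring
  have hXN : ∀ p i, p i = none → m * X p i + Y p i = m * rdeg N (ν i) + 1 := by
    intro p i hi
    simp only [X, Y, if_pos hi]
  -- the lattice points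
  have hΛ : ∀ p : S, ∃ Λ : Finset ({i // p.1 i ≠ none} → ℕ),
      ((∀ i, p.1 i ≠ none → 0 < wt p i) → ∀ α : {i // p.1 i ≠ none} → ℕ,
        ∑ i : {i // p.1 i ≠ none}, (wt p i)⁻¹ * α i < (m : ℝ) + c → α ∈ Λ) ∧
      (Λ.card : ℝ) ≤ 1 / ((Fintype.card {i // p.1 i ≠ none}).factorial : ℝ) *
        ∏ i : {i // p.1 i ≠ none}, (m * X p i + Y p i) := by
    intro p
    have hNf : (0 : ℝ) < (Fintype.card {i // p.1 i ≠ none}).factorial := by
      exact_mod_cast Nat.factorial_pos _
    have hprod : ∏ i : {i // p.1 i ≠ none}, (m * X p i + Y p i) =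
        (∏ i : {i // p.1 i ≠ none}, wt p i) *
          (m + c + σ p) ^ (Fintype.card {i // p.1 i ≠ none}) := by
      rw [← Finset.card_univ, ← Finset.prod_const, ← Finset.prod_mul_distrib]
      exact Finset.prod_congr rfl fun i _ => hXU p i i.2
    rw [hprod]
    by_cases hpos : ∀ i, p.1 i ≠ none → 0 < wt p i
    · obtain ⟨s, hs1, hs2⟩ := count' (fun i : {i // p.1 i ≠ none} => (wt p i)⁻¹) ((m : ℝ) + c)
        (fun i => inv_pos.2 (hpos i i.2)) (by positivity)
      refine ⟨s, fun _ => hs1, ?_⟩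
      have h1 : (0 : ℝ) < ∏ i : {i // p.1 i ≠ none}, wt p i :=
        Finset.prod_pos fun i _ => hpos i i.2
      rw [Finset.prod_inv_distrib] at hs2
      rw [div_mul_eq_mul_div, one_mul, le_div_iff₀ hNf]
      have h3 := mul_le_mul_of_nonneg_left hs2 h1.le
      calc (s.card : ℝ) * (Fintype.card {i // p.1 i ≠ none}).factorial =
          (∏ i : {i // p.1 i ≠ none}, wt p i) * ((s.card : ℝ) *
          ((Fintype.card {i // p.1 i ≠ none}).factorial *
            (∏ i : {i // p.1 i ≠ none}, wt p i)⁻¹)) := by field_simp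
        _ ≤ _ := h3
    · refine ⟨∅, fun h => absurd h hpos, ?_⟩
      have h3 := hσ p p.2
      have h4 : 0 ≤ ∏ i : {i // p.1 i ≠ none}, wt p i :=
        Finset.prod_nonneg fun i _ => h0 p p.2 i
      simp only [Finset.card_empty, Nat.cast_zero]
      positivity
  choose Λ hΛ1 hΛ2 using hΛ
  -- the expansions
  let A : S → ℕ := fun p => ⌈((m : ℝ) + c) * ∑ i, wt p i⌉₊
  let loc : S → (i : ι) → E i := fun p i =>
    ((D i (unif (plc p i)))⁻¹) ^ (N * m) * ((unif (plc p i))⁻¹) ^ (m * ν i (plc p i))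
  let gg : S → (i : ι) → Fin (r i) → E i := fun p i j => β i j * loc p i
  have hgg : ∀ (p : S) i j, Ge (plc p i) 0 (gg p i j) := by
    intro p i j
    have h1 := hβq i j (plc p i)
    have h2 : Ge (plc p i) (-vo (plc p i) (D i)) ((D i (unif (plc p i)))⁻¹) := Or.inr (by
      rw [(plc p i).ord_inv]; exact le_rfl)
    have h4 : Ge (plc p i) (-1) ((unif (plc p i))⁻¹) := Or.inr (by
      rw [(plc p i).ord_inv, ord_unif])
    refine (h1.mul ((h2.pow (N * m)).mul (h4.pow (m * ν i (plc p i))))).mono ?_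
    have h3 : 0 ≤ max (-(plc p i).ord (z i)) 0 := le_max_right _ _
    push_cast
    linarith
  have htay : ∀ (p : S) i j, ∃ t : ℕ → k, Ge (plc p i) (A p) (gg p i j -
      ∑ α ∈ Finset.range (A p), t α • unif (plc p i) ^ α) := fun p i j =>
    taylor (plc p i) (ord_unif _) (hgg p i j) (A p)
  choose t ht using htay
  -- the linear conditions
  let κ : Type := ∀ i, Fin (r i)
  let Ψ : (κ → k) →ₗ[k] ((Σ p : S, (↥(Λ p) × (∀ i : {i // ¬ p.1 i ≠ none}, Fin (r i)))) → k) :=
    { toFun := fun cc s => ∑ K : κ, (if (fun i : {i // ¬ s.1.1 i ≠ none} => K i) = s.2.2 then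
        ∏ i : {i // s.1.1 i ≠ none}, t s.1 i (K i) (s.2.1.1 i) else 0) * cc K
      map_add' := by
        intro a b
        funext s
        simp only [Pi.add_apply, mul_add, Finset.sum_add_distrib]
      map_smul' := by
        intro a b
        funext s
        simp only [Pi.smul_apply, smul_eq_mul, mul_left_comm, Finset.mul_sum, RingHom.id_apply] }
  have hcard : Fintype.card (Σ p : S, (↥(Λ p) × (∀ i : {i // ¬ p.1 i ≠ none}, Fin (r i)))) <
      Fintype.card κ := by
    have h1 := card_sig S (fun p i => p i ≠ none) r Λ (fun p i => m * X p i + Y p i)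
      (fun p hp i hi => by rw [hXN p i (not_not.1 hi)]; exact hr' i) hΛ2
      (fun p hp i hi => by
        rw [hXU p i hi]
        have := hσ p hp
        have := h0 p hp i
        positivity)
    have h2 : ∏ i, ((m : ℝ) * rdeg N (ν i) - γ i) ≤ (Fintype.card κ : ℝ) := by
      have h3 : Fintype.card κ = ∏ i, r i := by
        change Fintype.card (∀ i, Fin (r i)) = _
        rw [Fintype.card_pi]
        simp
      rw [h3]
      push_cast
      refine Finset.prod_le_prod (fun i _ => ?_) fun i _ => hr i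
      have h4 : (1 : ℝ) ≤ rdeg N (ν i) := by exact_mod_cast hg i
      have h5 : (m : ℝ) * 1 ≤ m * rdeg N (ν i) := mul_le_mul_of_nonneg_left h4 (by positivity)
      have := hmγ i
      linarith
    exact_mod_cast h1.trans_lt (hlt.trans_le h2)
  have hker : LinearMap.ker Ψ ≠ ⊥ := LinearMap.ker_ne_bot_of_finrank_lt (by
    rw [Module.finrank_fintype_fun_eq_card, Module.finrank_fintype_fun_eq_card]
    exact hcard)
  obtain ⟨cc, hcc, hcc0⟩ := (Submodule.ne_bot_iff _).1 hker
  refine ⟨κ, inferInstance, cc, fun K i => β i (K i), ?_, fun K i q => hβq i (K i) q, ?_⟩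
  · intro h1
    exact hcc0 (indep_prod E x hx (κ := fun i => Fin (r i)) β hβ cc h1)
  · intro p hp q hq hpos w b hw hwn δ hδ0 hδ X hX
    have hplc : ∀ i, p i ≠ none → plc ⟨p, hp⟩ i = q i := by
      intro i hi
      change (p i).getD _ = q i
      rw [hq i hi]
      rfl
    have h1 := ge_of_expansion (fun i : {i // p i ≠ none} => E i)
      (fun K : κ => cc K • ∏ i : {i // ¬ p i ≠ none}, (β i (K i) : L))
      (fun K i => gg ⟨p, hp⟩ i (K i)) (fun i => plc ⟨p, hp⟩ i) (fun i => unif (plc ⟨p, hp⟩ i))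
      (fun i => ord_unif _) (A ⟨p, hp⟩) (fun K i => t ⟨p, hp⟩ i (K i))
      (fun K i => hgg ⟨p, hp⟩ i (K i)) (fun K i => ht ⟨p, hp⟩ i (K i)) w
      (fun K => ge_smul _ (ge_prod0 _ _ fun i _ =>
        Or.inr (hwn i (not_not.1 i.2) _ (β i (K i)).2).ge)) (Λ ⟨p, hp⟩)
      (fun α hα => ?_) (fun i => b i) (fun i => by rw [hplc i i.2]; exact hw i i.2)
      X ?_ ?_
    · convert h1 using 1
      rw [Finset.sum_mul]
      refine Finset.sum_congr rfl fun K _ => ?_
      have h2 := Fintype.prod_subtype_mul_prod_subtype (fun i => p i ≠ none)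
        (fun i => ((β i (K i) : E i) : L))
      rw [← h2, smul_mul_assoc, smul_mul_assoc]
      congr 1
      have h3 : ∏ i : {i // p i ≠ none}, ((gg ⟨p, hp⟩ i (K i) : E i) : L) =
          (∏ i : {i // p i ≠ none}, ((β i (K i) : E i) : L)) * ∏ i : {i // p i ≠ none},
            ((((D i (unif (q i)) : E i) : L)⁻¹) ^ (N * m) *
              (((unif (q i) : E i) : L)⁻¹) ^ (m * ν i (q i))) := by
        rw [← Finset.prod_mul_distrib]
        refine Finset.prod_congr rfl fun i _ => ?_
        simp only [gg, loc]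
        rw [hplc i i.2]
        push_cast
        rfl
      rw [h3]
      ring
    · -- the linear conditions give the vanishing of the coefficients
      have h2 : ∀ K' : (∀ i : {i // ¬ p i ≠ none}, Fin (r i)),
          ∑ K : κ, (if (fun i : {i // ¬ p i ≠ none} => K i) = K' then
            ∏ i : {i // p i ≠ none}, t ⟨p, hp⟩ i (K i) (α i) else 0) * cc K = 0 := fun K' =>
        congrFun (LinearMap.mem_ker.1 hcc) ⟨⟨p, hp⟩, ⟨⟨α, hα⟩, K'⟩⟩
      have h3 : ∀ K : κ, (∏ i : {i // p i ≠ none}, t ⟨p, hp⟩ i (K i) (α i)) •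
          (cc K • ∏ i : {i // ¬ p i ≠ none}, (β i (K i) : L)) =
          ∑ K' : (∀ i : {i // ¬ p i ≠ none}, Fin (r i)),
            ((if (fun i : {i // ¬ p i ≠ none} => K i) = K' then
              ∏ i : {i // p i ≠ none}, t ⟨p, hp⟩ i (K i) (α i) else 0) * cc K) •
                ∏ i : {i // ¬ p i ≠ none}, (β i (K' i) : L) := by
        intro K
        rw [Finset.sum_eq_single (fun i : {i // ¬ p i ≠ none} => K i)]
        · rw [if_pos rfl, mul_smul]
        · intro K' _ hK'
          rw [if_neg (Ne.symm hK'), zero_mul, zero_smul]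
        · intro h; exact absurd (Finset.mem_univ _) h
      rw [Finset.sum_congr rfl fun K _ => h3 K, Finset.sum_comm]
      refine Finset.sum_eq_zero fun K' _ => ?_
      rw [← Finset.sum_smul, h2 K', zero_smul]
    · intro i
      have h2 : ((m : ℝ) + c) * wt p i ≤ A ⟨p, hp⟩ := by
        refine le_trans ?_ (Nat.le_ceil _)
        refine mul_le_mul_of_nonneg_left ?_ (by positivity)
        exact Finset.single_le_sum (f := fun i => wt p i) (fun i _ => h0 p hp i)
          (Finset.mem_univ (i : ι))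
      have h3 : (X : ℝ) ≤ ((A ⟨p, hp⟩ * b i : ℕ) : ℝ) := by
        push_cast
        calc (X : ℝ) ≤ ((m : ℝ) + c) * δ := hX
          _ ≤ (m + c) * (wt p i * b i) :=
              mul_le_mul_of_nonneg_left (hδ i i.2) (by positivity)
          _ = ((m + c) * wt p i) * b i := by ring
          _ ≤ _ := mul_le_mul_of_nonneg_right h2 (by positivity)
      exact_mod_cast h3
    · intro α hα
      have h2 : (m : ℝ) + c ≤ ∑ i : {i // p i ≠ none}, (wt p i)⁻¹ * α i := by
        by_contra hcon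
        push Not at hcon
        exact hα (hΛ1 ⟨p, hp⟩ hpos α hcon)
      have h3 : (X : ℝ) ≤ ((∑ i : {i // p i ≠ none}, α i * b i : ℕ) : ℝ) := by
        push_cast
        calc (X : ℝ) ≤ ((m : ℝ) + c) * δ := hX
          _ ≤ (∑ i : {i // p i ≠ none}, (wt p i)⁻¹ * α i) * δ :=
              mul_le_mul_of_nonneg_right h2 hδ0
          _ = ∑ i : {i // p i ≠ none}, (wt p i)⁻¹ * α i * δ := Finset.sum_mul _ _ _
          _ ≤ ∑ i : {i // p i ≠ none}, (wt p i)⁻¹ * α i * (wt p i * b i) :=
              Finset.sum_le_sum fun i _ => mul_le_mul_of_nonneg_left (hδ i i.2)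
                (mul_nonneg (inv_nonneg.2 (hpos i i.2).le) (by positivity))
          _ = ∑ i : {i // p i ≠ none}, (α i : ℝ) * b i := by
              refine Finset.sum_congr rfl fun i _ => ?_
              have := (hpos i i.2).ne'
              field_simp
      exact_mod_cast h3

end

end Pool.Agent.V7H50
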